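import Pool.Agent.Lib.MP_7fb13b_lc.H9.Defs

/-!
# MP_7fb13b_lc : cut ranks and wire length

For a set `S` of coordinates, a two-coordinate unitary acting on coordinates on the same side of
`S` does not increase the rank of the block `P[S, Sᶜ]`, and one which acts across `S` increases it
by at most one.  At the end the rank is at least `1/n` times the number of pairs `(k, n + l)`
which `S` separates, whatever `α` is (as long as `sin α ≠ 0`).
-/

open Matrix ComplexOrder

set_option linter.unusedSectionVars false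

namespace RotFourier

/-- `R` is a unitary matrix which agrees with the identity outside the rows and columns of the
two distinct coordinates `i` and `j`. -/
def IsTwoAt {ι : Type*} [Fintype ι] [DecidableEq ι] (R : Matrix ι ι ℂ) (i j : ι) : Prop :=
  i ≠ j ∧ R ∈ Matrix.unitaryGroup ι ℂ ∧
    ∀ a b : ι, ¬ ((a = i ∨ a = j) ∧ (b = i ∨ b = j)) → R a b = (1 : Matrix ι ι ℂ) a b

namespace Cut

variable {ι : Type*} [Fintype ι] [DecidableEq ι]

/-- The block of `P` with rows in `S` and columns outside `S`. -/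
def blk (S : ι → Prop) (P : Matrix ι ι ℂ) : Matrix {a // S a} {b // ¬ S b} ℂ :=
  P.submatrix Subtype.val Subtype.val

lemma blk_mul (S : ι → Prop) [DecidablePred S] (R P : Matrix ι ι ℂ) :
    blk S (R * P) = R.submatrix (Subtype.val : {a // S a} → ι) (Subtype.val : {a // S a} → ι) *
      blk S P + blk S R *
        P.submatrix (Subtype.val : {a // ¬ S a} → ι) (Subtype.val : {a // ¬ S a} → ι) := by
  ext a b
  simp only [blk, Matrix.submatrix_apply, Matrix.mul_apply, Matrix.add_apply]
  rw [← Fintype.sum_subtype_add_sum_subtype S]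

lemma rank_blk_gate (S : ι → Prop) [DecidablePred S] {R : Matrix ι ι ℂ} {i j : ι}
    (h : IsTwoAt R i j) : (blk S R).rank ≤ if (S i ↔ S j) then 0 else 1 := by
  obtain ⟨hij, -, h⟩ := h
  split_ifs with hS
  · have : blk S R = 0 := by
      ext a b
      simp only [blk, Matrix.submatrix_apply, Matrix.zero_apply]
      have hab : (a : ι) ≠ (b : ι) := fun e => b.2 (e ▸ a.2)
      rw [h, Matrix.one_apply_ne hab]
      rintro ⟨ha, hb⟩
      have ha2 := a.2
      have hb2 := b.2
      rcases ha with ha | ha <;> rcases hb with hb | hb <;> rw [ha] at ha2 <;> rw [hb] at hb2 <;>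
        tauto
    rw [this, Matrix.rank_zero]
  · -- exactly one of `i`, `j` is in `S`
    obtain ⟨p, q, hp, hq, hpq⟩ : ∃ p q : ι, S p ∧ ¬ S q ∧
        ∀ a b : ι, S a → ¬ S b → ¬ (a = p ∧ b = q) → R a b = 0 := by
      by_cases hi : S i
      · have hj : ¬ S j := fun hj => hS ⟨fun _ => hj, fun _ => hi⟩
        refine ⟨i, j, hi, hj, fun a b ha hb hn => ?_⟩
        have hab : a ≠ b := fun e => hb (e ▸ ha)
        rw [h, Matrix.one_apply_ne hab]
        rintro ⟨h1, h2⟩
        rcases h1 with h1 | h1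
        · rcases h2 with h2 | h2
          · exact hb (h2 ▸ hi)
          · exact hn ⟨h1, h2⟩
        · exact hj (h1 ▸ ha)
      · have hj : S j := by
          by_contra hj
          exact hS ⟨fun h => absurd h hi, fun h => absurd h hj⟩
        refine ⟨j, i, hj, hi, fun a b ha hb hn => ?_⟩
        have hab : a ≠ b := fun e => hb (e ▸ ha)
        rw [h, Matrix.one_apply_ne hab]
        rintro ⟨h1, h2⟩
        rcases h1 with h1 | h1
        · exact hi (h1 ▸ ha)
        · rcases h2 with h2 | h2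
          · exact hn ⟨h1, h2⟩
          · exact hb (h2 ▸ hj)
    have : blk S R = Matrix.vecMulVec (fun a : {a // S a} => if (a : ι) = p then R p q else 0)
        (fun b : {b // ¬ S b} => if (b : ι) = q then (1 : ℂ) else 0) := by
      ext a b
      simp only [blk, Matrix.submatrix_apply, Matrix.vecMulVec_apply]
      by_cases ha : (a : ι) = p
      · by_cases hb : (b : ι) = q
        · simp [ha, hb]
        · rw [hpq _ _ a.2 b.2 (fun e => hb e.2)]
          simp [hb]
      · rw [hpq _ _ a.2 b.2 (fun e => ha e.1)]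
        simp [ha]
    rw [this]
    exact Matrix.rank_vecMulVec_le _ _

lemma rank_add_le {K m n : Type*} [Field K] [Fintype m] [Fintype n]
    (A B : Matrix m n K) : (A + B).rank ≤ A.rank + B.rank := by
  unfold Matrix.rank
  have h : LinearMap.range (A + B).mulVecLin ≤
      LinearMap.range A.mulVecLin ⊔ LinearMap.range B.mulVecLin := by
    rintro _ ⟨v, rfl⟩
    rw [Matrix.mulVecLin_add, LinearMap.add_apply]
    exact Submodule.add_mem_sup ⟨v, rfl⟩ ⟨v, rfl⟩
  exact (Submodule.finrank_mono h).trans (Submodule.finrank_add_le_finrank_add_finrank _ _)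

/-- The gates `(i, j, R)` of `l` acting across `S`. -/
def crossing (S : ι → Prop) [DecidablePred S] (l : List (ι × ι × Matrix ι ι ℂ)) : ℕ :=
  (l.map fun g => if (S g.1 ↔ S g.2.1) then 0 else 1).sum

lemma rank_le_crossing (S : ι → Prop) [DecidablePred S] (l : List (ι × ι × Matrix ι ι ℂ))
    (hl : ∀ g ∈ l, IsTwoAt g.2.2 g.1 g.2.1) :
    (blk S (l.map fun g => g.2.2).prod).rank ≤ crossing S l := by
  induction l with
  | nil =>
    have : blk S (1 : Matrix ι ι ℂ) = 0 := by
      ext a b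
      have hab : (a : ι) ≠ (b : ι) := fun e => b.2 (e ▸ a.2)
      simp [blk, Matrix.one_apply_ne hab]
    simp [this, crossing]
  | cons g l ih =>
    have ih' := ih fun g' hg' => hl g' (List.mem_cons_of_mem _ hg')
    have hg := hl g List.mem_cons_self
    rw [List.map_cons, List.prod_cons, blk_mul]
    refine (rank_add_le _ _).trans ?_
    have h1 := Matrix.rank_mul_le_right
      (g.2.2.submatrix (Subtype.val : {a // S a} → ι) (Subtype.val : {a // S a} → ι))
      (blk S (l.map fun g : ι × ι × Matrix ι ι ℂ => g.2.2).prod)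
    have h2 := Matrix.rank_mul_le_left (blk S g.2.2)
      ((l.map fun g : ι × ι × Matrix ι ι ℂ => g.2.2).prod.submatrix
        (Subtype.val : {a // ¬ S a} → ι) (Subtype.val : {a // ¬ S a} → ι))
    have h3 := rank_blk_gate S hg
    have h4 : crossing S (g :: l) = (if (S g.1 ↔ S g.2.1) then 0 else 1) + crossing S l := by
      simp [crossing]
    omega

lemma normSq_sum_eq (v : ι → ℂ) : (star v ⬝ᵥ v).re = ∑ a, ‖v a‖ ^ 2 := by
  simp only [dotProduct, Pi.star_apply, Complex.re_sum]
  refine Finset.sum_congr rfl fun a _ => ?_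
  rw [Complex.star_def, mul_comm, Complex.mul_conj, Complex.normSq_eq_norm_sq, Complex.ofReal_re]

lemma unitary_norm {U : Matrix ι ι ℂ} (hU : U ∈ Matrix.unitaryGroup ι ℂ) (v : ι → ℂ) :
    ∑ a, ‖(U *ᵥ v) a‖ ^ 2 = ∑ a, ‖v a‖ ^ 2 := by
  rw [← normSq_sum_eq, ← normSq_sum_eq, Matrix.star_mulVec, Matrix.dotProduct_mulVec,
    Matrix.vecMul_vecMul]
  have : Uᴴ * U = 1 := (Matrix.mem_unitaryGroup_iff'.1 hU)
  rw [this, Matrix.vecMul_one]

/-- The squared norm of the block `U[S, Sᶜ]` of a unitary matrix is at most its rank. -/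
theorem frob_le_rank (S : ι → Prop) [DecidablePred S] {U : Matrix ι ι ℂ}
    (hU : U ∈ Matrix.unitaryGroup ι ℂ) :
    ∑ a : {a // S a}, ∑ b : {b // ¬ S b}, ‖U a b‖ ^ 2 ≤ ((blk S U).rank : ℝ) := by
  set A := blk S U with hA
  have hH : (Aᴴ * A).IsHermitian := Matrix.isHermitian_conjTranspose_mul_self A
  have hr : A.rank = Fintype.card {i // hH.eigenvalues i ≠ 0} := by
    rw [← Matrix.rank_conjTranspose_mul_self, hH.rank_eq_card_non_zero_eigs]
  have htr : ∑ a : {a // S a}, ∑ b : {b // ¬ S b}, ‖U a b‖ ^ 2 = ∑ i, hH.eigenvalues i := by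
    have h1 := hH.trace_eq_sum_eigenvalues
    have h2 : (Aᴴ * A).trace.re = ∑ i, hH.eigenvalues i := by
      rw [h1, Complex.re_sum]
      simp
    rw [← h2, Matrix.trace, Complex.re_sum, Finset.sum_comm]
    refine Finset.sum_congr rfl fun b _ => ?_
    rw [Matrix.diag_apply, Matrix.mul_apply, Complex.re_sum]
    refine Finset.sum_congr rfl fun a _ => ?_
    rw [Matrix.conjTranspose_apply, Complex.star_def, mul_comm, Complex.mul_conj,
      Complex.normSq_eq_norm_sq, Complex.ofReal_re]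
    rfl
  have hle : ∀ i, hH.eigenvalues i ≤ 1 := by
    intro i
    rw [hH.eigenvalues_eq]
    set v : {b // ¬ S b} → ℂ := (hH.eigenvectorBasis i).ofLp with hv
    have hnorm : ∑ b, ‖v b‖ ^ 2 = 1 := by
      have h1 : ‖hH.eigenvectorBasis i‖ = 1 := hH.eigenvectorBasis.orthonormal.1 i
      rw [EuclideanSpace.norm_eq, Real.sqrt_eq_one] at h1
      exact h1
    set w : ι → ℂ := fun a => if h : S a then 0 else v ⟨a, h⟩ with hw
    have hwn : ∑ a, ‖w a‖ ^ 2 = 1 := by
      rw [← Fintype.sum_subtype_add_sum_subtype S]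
      have h1 : ∑ a : {a // S a}, ‖w a‖ ^ 2 = 0 := by
        refine Finset.sum_eq_zero fun a _ => ?_
        simp [hw, a.2]
      rw [h1, zero_add, ← hnorm]
      refine Finset.sum_congr rfl fun b _ => ?_
      simp [hw, b.2]
    have hAv : ∀ a : {a // S a}, (A *ᵥ v) a = (U *ᵥ w) a := by
      intro a
      simp only [Matrix.mulVec, dotProduct]
      rw [← Fintype.sum_subtype_add_sum_subtype S (fun b => U a b * w b)]
      have h1 : ∑ b : {b // S b}, U a b * w b = 0 := by
        refine Finset.sum_eq_zero fun b _ => ?_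
        simp [hw, b.2]
      rw [h1, zero_add]
      refine Finset.sum_congr rfl fun b _ => ?_
      simp [hw, b.2, hA, blk]
    have h1 : RCLike.re (star v ⬝ᵥ (Aᴴ * A) *ᵥ v) = ∑ a, ‖(A *ᵥ v) a‖ ^ 2 := by
      rw [← Matrix.mulVec_mulVec, Matrix.dotProduct_mulVec, ← Matrix.star_mulVec]
      exact normSq_sum_eq _
    rw [h1]
    calc ∑ a, ‖(A *ᵥ v) a‖ ^ 2 = ∑ a : {a // S a}, ‖(U *ᵥ w) a‖ ^ 2 :=
          Finset.sum_congr rfl fun a _ => by rw [hAv]
      _ ≤ ∑ a, ‖(U *ᵥ w) a‖ ^ 2 := by
          rw [← Fintype.sum_subtype_add_sum_subtype S (fun a => ‖(U *ᵥ w) a‖ ^ 2)]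
          exact le_add_of_nonneg_right (Finset.sum_nonneg fun _ _ => by positivity)
      _ = 1 := by rw [unitary_norm hU, hwn]
  rw [htr, hr, Fintype.card_subtype, Finset.card_filter]
  push_cast
  refine Finset.sum_le_sum fun i _ => ?_
  split_ifs with h
  · exact hle i
  · exact (not_not.1 h).le

lemma rotG_mem (n : ℕ) (hn : 0 < n) : rotG n ∈ Matrix.unitaryGroup (Fin n ⊕ Fin n) ℂ := by
  rw [Matrix.mem_unitaryGroup_iff]
  exact rotG_mul_conjTranspose hn

lemma blk_rotX (n : ℕ) (α : ℝ) (S : Fin n ⊕ Fin n → Prop) :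
    blk S (rotX n α) = ((Real.sin α : ℝ) : ℂ) • blk S (rotG n) := by
  ext a b
  have hab : (a : Fin n ⊕ Fin n) ≠ (b : Fin n ⊕ Fin n) := fun e => b.2 (e ▸ a.2)
  simp [blk, rotX, Matrix.one_apply_ne hab]

/-- **Cut bound.** -/
theorem crossing_ge {n : ℕ} (hn : 0 < n) {α : ℝ} (hα : Real.sin α ≠ 0)
    (S : Fin n ⊕ Fin n → Prop) [DecidablePred S]
    (l : List ((Fin n ⊕ Fin n) × (Fin n ⊕ Fin n) × Matrix (Fin n ⊕ Fin n) (Fin n ⊕ Fin n) ℂ))
    (hl : ∀ g ∈ l, IsTwoAt g.2.2 g.1 g.2.1) (hp : (l.map fun g => g.2.2).prod = rotX n α) :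
    (∑ k : Fin n, ∑ m : Fin n, if (S (Sum.inl k) ↔ S (Sum.inr m)) then (0 : ℝ) else 1) ≤
      n * (crossing S l : ℝ) := by
  have h1 := rank_le_crossing S l hl
  rw [hp, blk_rotX] at h1
  have h2 : (((Real.sin α : ℝ) : ℂ) • blk S (rotG n)).rank = (blk S (rotG n)).rank := by
    apply Matrix.rank_smul_of_mem_nonZeroDivisors
    rw [mem_nonZeroDivisors_iff_ne_zero]
    exact_mod_cast hα
  rw [h2] at h1
  have h3 := frob_le_rank S (rotG_mem n hn)
  have h4 : (∑ k : Fin n, ∑ m : Fin n, if (S (Sum.inl k) ↔ S (Sum.inr m)) then (0 : ℝ) else 1) =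
      n * ∑ a : {a // S a}, ∑ b : {b // ¬ S b}, ‖rotG n a b‖ ^ 2 := by
    have hn' : (n : ℝ) ≠ 0 := by exact_mod_cast hn.ne'
    have e1 : ∀ a : Fin n ⊕ Fin n, ∑ b : {b // ¬ S b}, ‖rotG n a b‖ ^ 2 =
        ∑ b : Fin n ⊕ Fin n, if S b then 0 else ‖rotG n a b‖ ^ 2 := by
      intro a
      rw [← Fintype.sum_subtype_add_sum_subtype S (fun b => if S b then 0 else ‖rotG n a b‖ ^ 2)]
      have : ∑ b : {b // S b}, (if S (b : Fin n ⊕ Fin n) then (0 : ℝ) else
          ‖rotG n a b‖ ^ 2) = 0 :=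
        Finset.sum_eq_zero fun b _ => by simp [b.2]
      rw [this, zero_add]
      exact Finset.sum_congr rfl fun b _ => by simp [b.2]
    have e2 : ∑ a : {a // S a}, ∑ b : {b // ¬ S b}, ‖rotG n a b‖ ^ 2 =
        ∑ a : Fin n ⊕ Fin n, if S a then
          ∑ b : Fin n ⊕ Fin n, if S b then 0 else ‖rotG n a b‖ ^ 2 else 0 := by
      rw [← Fintype.sum_subtype_add_sum_subtype S (fun a => if S a then
          ∑ b : Fin n ⊕ Fin n, (if S b then 0 else ‖rotG n a b‖ ^ 2) else 0)]
      have : ∑ a : {a // ¬ S a}, (if S (a : Fin n ⊕ Fin n) then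
          ∑ b : Fin n ⊕ Fin n, (if S b then 0 else ‖rotG n a b‖ ^ 2) else 0) = 0 :=
        Finset.sum_eq_zero fun a _ => by simp [a.2]
      rw [this, add_zero]
      exact Finset.sum_congr rfl fun a _ => by rw [e1]; simp [a.2]
    have g11 : ∀ k m : Fin n, rotG n (Sum.inl k) (Sum.inl m) = 0 := fun k m => by simp [rotG]
    have g22 : ∀ k m : Fin n, rotG n (Sum.inr k) (Sum.inr m) = 0 := fun k m => by simp [rotG]
    have g12 : ∀ k m : Fin n, ‖rotG n (Sum.inl k) (Sum.inr m)‖ ^ 2 = 1 / n := fun k m => by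
      simp only [rotG, Matrix.fromBlocks_apply₁₂]
      exact dft_norm_sq hn k m
    have g21 : ∀ k m : Fin n, ‖rotG n (Sum.inr m) (Sum.inl k)‖ ^ 2 = 1 / n := fun k m => by
      simp only [rotG, Matrix.fromBlocks_apply₂₁, Matrix.neg_apply, Matrix.conjTranspose_apply,
        norm_neg, norm_star]
      exact dft_norm_sq hn k m
    rw [e2, Fintype.sum_sum_type]
    simp only [Fintype.sum_sum_type, g11, g22, g12, g21]
    simp only [norm_zero, ne_eq, OfNat.ofNat_ne_zero, not_false_eq_true, zero_pow, ite_self,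
      Finset.sum_const_zero, zero_add, add_zero]
    have e3 : ∑ m : Fin n, (if S (Sum.inr m) then
        ∑ k : Fin n, (if S (Sum.inl k) then (0 : ℝ) else 1 / n) else 0) =
        ∑ k : Fin n, ∑ m : Fin n, (if S (Sum.inr m) then
          (if S (Sum.inl k) then (0 : ℝ) else 1 / n) else 0) := by
      rw [Finset.sum_comm]
      refine Finset.sum_congr rfl fun m _ => ?_
      split_ifs
      · rfl
      · simp
    have e4 : ∑ k : Fin n, (if S (Sum.inl k) then
        ∑ m : Fin n, (if S (Sum.inr m) then (0 : ℝ) else 1 / n) else 0) =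
        ∑ k : Fin n, ∑ m : Fin n, (if S (Sum.inl k) then
          (if S (Sum.inr m) then (0 : ℝ) else 1 / n) else 0) := by
      refine Finset.sum_congr rfl fun m _ => ?_
      split_ifs
      · rfl
      · simp
    rw [e3, e4, ← Finset.sum_add_distrib, Finset.mul_sum]
    refine Finset.sum_congr rfl fun k _ => ?_
    rw [← Finset.sum_add_distrib, Finset.mul_sum]
    refine Finset.sum_congr rfl fun m _ => ?_
    by_cases h1 : S (Sum.inl k) <;> by_cases h2 : S (Sum.inr m) <;> simp [h1, h2, hn']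
  rw [h4]
  have h5 : ((blk S (rotG n)).rank : ℝ) ≤ crossing S l := by exact_mod_cast h1
  exact mul_le_mul_of_nonneg_left (h3.trans h5) (by positivity)

end Cut

end RotFourier
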