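import Pool.Agent.Lib.MP_7fb13b_lc.H35.Cut

/-!
# MP_7fb13b_lc : wire length of an algorithm for the rotated Fourier matrix
-/

open Matrix

set_option linter.unusedSectionVars false

namespace RotFourier

namespace Cut

/-- A linear inequality between the distances `|f a - f b|` which holds for all indicator
functions holds for all real functions. -/
theorem cut_cone {ι κ : Type*} [Fintype ι] [DecidableEq ι] [Fintype κ] (c : κ → ℝ) (x y : κ → ι)
    (h : ∀ (S : ι → Prop) [DecidablePred S],
      0 ≤ ∑ k, c k * (if (S (x k) ↔ S (y k)) then 0 else 1)) (f : ι → ℝ) :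
    0 ≤ ∑ k, c k * |f (x k) - f (y k)| := by
  classical
  -- induction on the number of values
  induction hm : (Finset.univ.image f).card using Nat.strong_induction_on generalizing f with
  | _ m ih =>
    by_cases hcard : (Finset.univ.image f).card ≤ 1
    · have hconst : ∀ a b, f a = f b := fun a b =>
        Finset.card_le_one.1 hcard _ (Finset.mem_image_of_mem f (Finset.mem_univ a)) _
          (Finset.mem_image_of_mem f (Finset.mem_univ b))
      refine Finset.sum_nonneg fun k _ => ?_
      rw [hconst (x k) (y k)]
      simp
    · push Not at hcard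
      set V := Finset.univ.image f with hV
      have hne : V.Nonempty := Finset.card_pos.1 (by omega)
      set v1 := V.min' hne with hv1
      have hV1 : v1 ∈ V := Finset.min'_mem V hne
      have hne2 : (V.erase v1).Nonempty := by
        rw [← Finset.card_pos, Finset.card_erase_of_mem hV1]
        omega
      set v2 := (V.erase v1).min' hne2 with hv2
      have hV2 : v2 ∈ V.erase v1 := Finset.min'_mem _ hne2
      have h12 : v1 < v2 := by
        refine lt_of_le_of_ne (Finset.min'_le V v2 (Finset.mem_of_mem_erase hV2)) ?_
        exact (Finset.ne_of_mem_erase hV2).symm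
      have hge : ∀ a, f a ≠ v1 → v2 ≤ f a := fun a ha =>
        Finset.min'_le _ _ (Finset.mem_erase.2 ⟨ha, Finset.mem_image_of_mem f (Finset.mem_univ a)⟩)
      set g : ι → ℝ := fun a => if f a = v1 then v2 else f a with hg
      have himg : Finset.univ.image g ⊆ V.erase v1 := by
        intro t ht
        obtain ⟨a, -, rfl⟩ := Finset.mem_image.1 ht
        simp only [hg]
        split_ifs with h1
        · exact hV2
        · exact Finset.mem_erase.2 ⟨h1, Finset.mem_image_of_mem f (Finset.mem_univ a)⟩
      have hlt : (Finset.univ.image g).card < m := by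
        have := Finset.card_le_card himg
        rw [Finset.card_erase_of_mem hV1] at this
        omega
      have h1 := ih _ hlt g rfl
      have h2 := h (fun a => f a = v1)
      have hkey : ∀ a b : ι, |f a - f b| = |g a - g b| +
          (v2 - v1) * (if (f a = v1 ↔ f b = v1) then 0 else 1) := by
        intro a b
        simp only [hg]
        by_cases ha : f a = v1 <;> by_cases hb : f b = v1
        · simp [ha, hb]
        · have := hge b hb
          simp only [ha, hb, if_true, if_false, true_iff, mul_one]
          rw [abs_of_nonpos (by linarith), abs_of_nonpos (by linarith)]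
          ring
        · have := hge a ha
          simp only [ha, hb, if_true, if_false, iff_true, mul_one]
          rw [abs_of_nonneg (by linarith), abs_of_nonneg (by linarith)]
          ring
        · simp [ha, hb]
      have h3 : ∑ k, c k * |f (x k) - f (y k)| = ∑ k, c k * |g (x k) - g (y k)| +
          (v2 - v1) * ∑ k, c k * (if (f (x k) = v1 ↔ f (y k) = v1) then 0 else 1) := by
        rw [Finset.mul_sum, ← Finset.sum_add_distrib]
        refine Finset.sum_congr rfl fun k _ => ?_
        rw [hkey]
        ring
      rw [h3]
      exact add_nonneg h1 (mul_nonneg (by linarith) h2)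

/-- **Wire length.** For every placement `f` of the coordinates on a line, the gates of an
algorithm for `X_α` have total length at least `1/n` times the sum of the distances of the
coordinates `k` and `n + l`. -/
theorem wire_length {n : ℕ} (hn : 0 < n) {α : ℝ} (hα : Real.sin α ≠ 0)
    (l : List ((Fin n ⊕ Fin n) × (Fin n ⊕ Fin n) × Matrix (Fin n ⊕ Fin n) (Fin n ⊕ Fin n) ℂ))
    (hl : ∀ g ∈ l, IsTwoAt g.2.2 g.1 g.2.1) (hp : (l.map fun g => g.2.2).prod = rotX n α)
    (f : Fin n ⊕ Fin n → ℝ) :
    (∑ k : Fin n, ∑ m : Fin n, |f (Sum.inl k) - f (Sum.inr m)|) ≤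
      n * (l.map fun g => |f g.1 - f g.2.1|).sum := by
  have key := cut_cone (ι := Fin n ⊕ Fin n) (κ := Fin l.length ⊕ (Fin n × Fin n))
    (fun k => Sum.elim (fun _ => (n : ℝ)) (fun _ => -1) k)
    (fun k => Sum.elim (fun t => (l.get t).1) (fun p => Sum.inl p.1) k)
    (fun k => Sum.elim (fun t => (l.get t).2.1) (fun p => Sum.inr p.2) k) ?_ f
  · rw [Fintype.sum_sum_type] at key
    simp only [Sum.elim_inl, Sum.elim_inr] at key
    rw [← Finset.mul_sum, Fintype.sum_prod_type] at key
    have e1 : (l.map fun g => |f g.1 - f g.2.1|).sum =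
        ∑ t : Fin l.length, |f (l.get t).1 - f (l.get t).2.1| := by
      rw [← List.sum_ofFn]
      congr 1
      apply List.ext_get <;> simp
    rw [e1]
    simp only [neg_mul, one_mul, Finset.sum_neg_distrib] at key
    linarith
  · intro S _
    rw [Fintype.sum_sum_type]
    simp only [Sum.elim_inl, Sum.elim_inr]
    rw [← Finset.mul_sum, Fintype.sum_prod_type]
    have h1 := crossing_ge hn hα S l hl hp
    have e1 : (crossing S l : ℝ) =
        ∑ t : Fin l.length, (if (S (l.get t).1 ↔ S (l.get t).2.1) then (0 : ℝ) else 1) := by
      unfold crossing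
      have : (l.map fun g => if (S g.1 ↔ S g.2.1) then 0 else 1).sum =
          ∑ t : Fin l.length, (if (S (l.get t).1 ↔ S (l.get t).2.1) then 0 else 1) := by
        rw [← List.sum_ofFn]
        congr 1
        apply List.ext_get <;> simp
      rw [this]
      push_cast
      rfl
    rw [e1] at h1
    simp only [neg_mul, one_mul, Finset.sum_neg_distrib]
    rw [← sub_eq_add_neg, sub_nonneg]
    refine le_of_eq_of_le ?_ (le_of_le_of_eq h1 ?_)
    · exact Finset.sum_congr rfl fun _ _ => Finset.sum_congr rfl fun _ _ => by congr
    · congr 1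

/-- **Lower bound in hypercube networks.** -/
theorem cube_lower (L : ℕ) {α : ℝ} (hα : Real.sin α ≠ 0)
    (φ : Fin (2 ^ L) ⊕ Fin (2 ^ L) ≃ (Fin (L + 1) → Bool))
    (l : List ((Fin (2 ^ L) ⊕ Fin (2 ^ L)) × (Fin (2 ^ L) ⊕ Fin (2 ^ L)) ×
      Matrix (Fin (2 ^ L) ⊕ Fin (2 ^ L)) (Fin (2 ^ L) ⊕ Fin (2 ^ L)) ℂ))
    (hl : ∀ g ∈ l, IsTwoAt g.2.2 g.1 g.2.1) (hp : (l.map fun g => g.2.2).prod = rotX (2 ^ L) α)
    (hc : ∀ g ∈ l, hammingDist (φ g.1) (φ g.2.1) = 1) :
    (L + 1) * 2 ^ L ≤ 2 * l.length := by
  classical
  have hn : 0 < 2 ^ L := by positivity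
  -- for every bit
  have hbit : ∀ q : Fin (L + 1), (2 ^ L : ℝ) / 2 ≤ (crossing (fun a => φ a q = true) l : ℝ) := by
    intro q
    have h1 := crossing_ge hn hα (fun a => φ a q = true) l hl hp
    set a : ℕ := (Finset.univ.filter fun k : Fin (2 ^ L) => φ (Sum.inl k) q = true).card with ha
    set b : ℕ := (Finset.univ.filter fun k : Fin (2 ^ L) => φ (Sum.inr k) q = true).card with hb
    have hab : a + b = 2 ^ L := by
      have e1 : a + b = (Finset.univ.filter fun x : Fin (2 ^ L) ⊕ Fin (2 ^ L) =>
          φ x q = true).card := by
        rw [ha, hb, Finset.card_filter, Finset.card_filter, Finset.card_filter,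
          Fintype.sum_sum_type]
      have e2 : (Finset.univ.filter fun x : Fin (2 ^ L) ⊕ Fin (2 ^ L) => φ x q = true).card =
          (Finset.univ.filter fun v : Fin (L + 1) → Bool => v q = true).card := by
        apply Finset.card_bij (fun x _ => φ x)
        · intro x hx
          simpa using hx
        · intro x _ y _ h
          exact φ.injective h
        · intro v hv
          exact ⟨φ.symm v, by simpa using hv, by simp⟩
      have e3 : (Finset.univ.filter fun v : Fin (L + 1) → Bool => v q = true).card =
          (Finset.univ.filter fun v : Fin (L + 1) → Bool => v q = false).card := by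
        apply Finset.card_bij (fun v _ => Function.update v q false)
        · intro v hv
          simp
        · intro v hv w hw h
          have hv' : v q = true := by simpa using hv
          have hw' : w q = true := by simpa using hw
          funext i
          by_cases hi : i = q
          · rw [hi, hv', hw']
          · have := congrFun h i
            simpa [Function.update_of_ne hi] using this
        · intro v hv
          have hv' : v q = false := by simpa using hv
          refine ⟨Function.update v q true, by simp, ?_⟩
          rw [Function.update_idem, ← hv', Function.update_eq_self]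
      have e4 : (Finset.univ.filter fun v : Fin (L + 1) → Bool => v q = true).card +
          (Finset.univ.filter fun v : Fin (L + 1) → Bool => v q = false).card = 2 ^ (L + 1) := by
        have := Finset.card_filter_add_card_filter_not (s := (Finset.univ : Finset (Fin (L + 1) → Bool)))
          (fun v => v q = true)
        simp only [Bool.not_eq_true, Finset.card_univ, Fintype.card_pi, Fintype.card_bool,
          Finset.prod_const, Fintype.card_fin] at this
        exact this
      rw [pow_succ] at e4
      omega
    have h2 : (∑ k : Fin (2 ^ L), ∑ m : Fin (2 ^ L),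
        if (φ (Sum.inl k) q = true ↔ φ (Sum.inr m) q = true) then (0 : ℝ) else 1) =
        (a : ℝ) * (2 ^ L - b) + (2 ^ L - a) * b := by
      have hb' : (∑ m : Fin (2 ^ L), if φ (Sum.inr m) q = true then (1 : ℝ) else 0) = b := by
        rw [hb, Finset.card_filter]; push_cast; rfl
      have ha' : (∑ m : Fin (2 ^ L), if φ (Sum.inl m) q = true then (1 : ℝ) else 0) = a := by
        rw [ha, Finset.card_filter]; push_cast; rfl
      have e1 : ∀ k : Fin (2 ^ L), (∑ m : Fin (2 ^ L),
          if (φ (Sum.inl k) q = true ↔ φ (Sum.inr m) q = true) then (0 : ℝ) else 1) =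
          (if φ (Sum.inl k) q = true then (1 : ℝ) else 0) * (2 ^ L - b) +
            (1 - (if φ (Sum.inl k) q = true then (1 : ℝ) else 0)) * b := by
        intro k
        have hcard : (∑ m : Fin (2 ^ L), (1 : ℝ)) = 2 ^ L := by simp
        cases hk : φ (Sum.inl k) q
        · simp only [Bool.false_eq_true, false_iff, if_false, zero_mul, zero_add, sub_zero,
            one_mul]
          rw [← hb']
          exact Finset.sum_congr rfl fun m _ => by split_ifs <;> simp_all
        · simp only [true_iff, if_true, one_mul, sub_self, zero_mul, add_zero]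
          rw [← hb', ← hcard, ← Finset.sum_sub_distrib]
          exact Finset.sum_congr rfl fun m _ => by split_ifs <;> simp
      rw [Finset.sum_congr rfl fun k _ => e1 k, Finset.sum_add_distrib, ← Finset.sum_mul,
        ← Finset.sum_mul, ha', Finset.sum_sub_distrib, ha']
      simp
    have h3 : (b : ℝ) = 2 ^ L - a := by
      have : ((a + b : ℕ) : ℝ) = 2 ^ L := by rw [hab]; push_cast; rfl
      push_cast at this
      linarith
    have h4 : (2 ^ L : ℝ) ^ 2 / 2 ≤ (a : ℝ) * (2 ^ L - b) + (2 ^ L - a) * b := by
      rw [h3]
      nlinarith [sq_nonneg ((a : ℝ) - 2 ^ L / 2)]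
    have h5 : (2 ^ L : ℝ) ^ 2 / 2 ≤ (2 ^ L : ℝ) * (crossing (fun a => φ a q = true) l : ℝ) := by
      have : ((2 ^ L : ℕ) : ℝ) = 2 ^ L := by push_cast; rfl
      rw [this] at h1
      calc _ ≤ _ := h4
        _ = _ := h2.symm
        _ ≤ _ := h1
    have hpos : (0 : ℝ) < 2 ^ L := by positivity
    nlinarith
  -- sum over the bits
  have hsum : ∑ q : Fin (L + 1), crossing (fun a => φ a q = true) l = l.length := by
    clear hbit hp
    induction l with
    | nil => simp [crossing]
    | cons g l ih =>
      have ih' := ih (fun g' hg' => hl g' (List.mem_cons_of_mem _ hg'))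
        (fun g' hg' => hc g' (List.mem_cons_of_mem _ hg'))
      have h4 : ∀ q, crossing (fun a => φ a q = true) (g :: l) =
          (if (φ g.1 q = true ↔ φ g.2.1 q = true) then 0 else 1) +
            crossing (fun a => φ a q = true) l := by
        intro q
        simp [crossing]
      rw [Finset.sum_congr rfl fun q _ => h4 q, Finset.sum_add_distrib, ih', List.length_cons,
        add_comm]
      congr 1
      have h5 := hc g List.mem_cons_self
      rw [hammingDist, Finset.card_filter] at h5
      refine Eq.trans (Finset.sum_congr rfl fun q _ => ?_) h5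
      cases φ g.1 q <;> cases φ g.2.1 q <;> simp
  have h6 : ((L + 1 : ℕ) : ℝ) * (2 ^ L / 2) ≤ (l.length : ℝ) := by
    rw [← hsum]
    push_cast
    calc ((L : ℝ) + 1) * (2 ^ L / 2) = ∑ _q : Fin (L + 1), (2 ^ L : ℝ) / 2 := by
          rw [Finset.sum_const, Finset.card_univ, Fintype.card_fin, nsmul_eq_mul]
          push_cast; ring
      _ ≤ _ := Finset.sum_le_sum fun q _ => hbit q
  have h7 : (((L + 1) * 2 ^ L : ℕ) : ℝ) ≤ ((2 * l.length : ℕ) : ℝ) := by
    push_cast at h6 ⊢
    linarith
  exact_mod_cast h7

end Cut

end RotFourier
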