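import Pool.Agent.Lib.MP_7fb13b_lc.H35.FFT
import Pool.Agent.Lib.MP_7fb13b_lc.H35.Wire

/-!
# MP_7fb13b_lc : the exact number of steps in the hypercube network
-/

open Matrix

set_option linter.unusedSectionVars false

namespace RotFourier

namespace FFT

lemma bf_ker (L : ℕ) (w : V L) (y : Bool → ℂ) (h : ∀ c, ∑ b, bf L w c b * y b = 0) : y = 0 := by
  have h1 : (bf L w)ᴴ * bf L w = 1 := mul_eq_one_comm.1 (bf_unitary L w)
  have h2 : bf L w *ᵥ y = 0 := by
    funext c
    exact h c
  rw [← Matrix.one_mulVec y, ← h1, ← Matrix.mulVec_mulVec, h2, Matrix.mulVec_zero]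

lemma bf_ker' (L : ℕ) (w : V L) (y : Bool → ℂ) (h : ∀ b, ∑ c, star (bf L w c b) * y c = 0) :
    y = 0 := by
  have h2 : (bf L w)ᴴ *ᵥ y = 0 := by
    funext c
    exact h c
  rw [← Matrix.one_mulVec y, ← bf_unitary L w, ← Matrix.mulVec_mulVec, h2, Matrix.mulVec_zero]

lemma bf_ne (L : ℕ) (w : V L) (c b : Bool) : bf L w c b ≠ 0 := by
  unfold bf
  refine mul_ne_zero ?_ (mul_ne_zero ?_ ?_)
  · apply inv_ne_zero
    rw [Complex.ofReal_ne_zero]
    positivity
  · split_ifs
    · exact Complex.exp_ne_zero _
    · exact one_ne_zero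
  · split_ifs
    · norm_num
    · exact one_ne_zero

lemma W_ker (L : ℕ) (x : V L → ℂ) (h : ∀ v, ∑ w, W L v w * x w = 0) : x = 0 := by
  have h2 : W L *ᵥ x = 0 := by
    funext c
    exact h c
  rw [← Matrix.one_mulVec x, ← W_unitary' L, ← Matrix.mulVec_mulVec, h2, Matrix.mulVec_zero]

lemma W_ker' (L : ℕ) (x : V L → ℂ) (h : ∀ v, ∑ w, star (W L w v) * x w = 0) : x = 0 := by
  have h2 : (W L)ᴴ *ᵥ x = 0 := by
    funext c
    exact h c
  rw [← Matrix.one_mulVec x, ← W_unitary L, ← Matrix.mulVec_mulVec, h2, Matrix.mulVec_zero]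

lemma sum_V_succ (L : ℕ) (f : V (L + 1) → ℂ) :
    ∑ x, f x = ∑ v : V L, ∑ b : Bool, f (v, b) :=
  Fintype.sum_prod_type (fun x : V L × Bool => f x)

lemma W_succ_sum (L : ℕ) (x : V (L + 1) → ℂ) (v : V L) (c : Bool) :
    ∑ w, W (L + 1) (v, c) w * x w =
      ∑ w : V L, W L v w * ∑ b : Bool, bf L w c b * x (w, b) := by
  rw [sum_V_succ]
  refine Finset.sum_congr rfl fun w _ => ?_
  rw [Finset.mul_sum]
  refine Finset.sum_congr rfl fun b _ => ?_
  have : (W (L + 1)) (v, c) (w, b) = W L v w * bf L w c b := W_succ_apply L v w c b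
  rw [this, mul_assoc]

lemma W_succ_sum' (L : ℕ) (x : V (L + 1) → ℂ) (w : V L) (b : Bool) :
    ∑ v, star (W (L + 1) v (w, b)) * x v =
      ∑ c : Bool, star (bf L w c b) * ∑ v : V L, star (W L v w) * x (v, c) := by
  rw [sum_V_succ, Finset.sum_comm]
  refine Finset.sum_congr rfl fun c _ => ?_
  rw [Finset.mul_sum]
  refine Finset.sum_congr rfl fun v _ => ?_
  have : (W (L + 1)) (v, c) (w, b) = W L v w * bf L w c b := W_succ_apply L v w c b
  rw [this, star_mul', mul_comm (star (W L v w)), mul_assoc]

/-- The blocks of `W` cut out by one bit are injective. -/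
theorem ker1 : ∀ (L : ℕ) (j : Fin L) (a b : Bool) (x : V L → ℂ),
    (∀ w, lab L w j ≠ b → x w = 0) → (∀ v, lab L v j = a → ∑ w, W L v w * x w = 0) → x = 0
  | 0, j, _, _, _, _, _ => j.elim0
  | L + 1, j, a, b, x, h1, h2 => by
    induction j using Fin.cases with
    | zero =>
      -- the new bit
      have e1 : ∀ v, ∑ w : V L, W L v w * (bf L w a b * x (w, b)) = 0 := by
        intro v
        have := h2 (v, a) rfl
        rw [W_succ_sum] at this
        rw [← this]
        refine Finset.sum_congr rfl fun w _ => ?_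
        congr 1
        rw [Finset.sum_eq_single b]
        · intro b' _ hb'
          rw [h1 (w, b') hb', mul_zero]
        · intro h; exact absurd (Finset.mem_univ _) h
      have e2 := W_ker L _ e1
      funext y
      obtain ⟨w, b'⟩ := y
      by_cases hb : b' = b
      · subst hb
        have := congrFun e2 w
        rcases mul_eq_zero.1 this with h | h
        · exact absurd h (bf_ne L w a b')
        · exact h
      · exact h1 (w, b') hb
    | succ j =>
      have e1 : ∀ c, (fun w : V L => ∑ b' : Bool, bf L w c b' * x (w, b')) = 0 := by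
        intro c
        refine ker1 L j a b _ ?_ ?_
        · intro w hw
          refine Finset.sum_eq_zero fun b' _ => ?_
          rw [h1 (w, b') hw, mul_zero]
        · intro v hv
          have := h2 (v, c) hv
          rwa [W_succ_sum] at this
      funext y
      obtain ⟨w, b'⟩ := y
      have := bf_ker L w (fun b' => x (w, b')) (fun c => congrFun (e1 c) w)
      exact congrFun this b'

/-- The blocks of the adjoint of `W` cut out by one bit are injective. -/
theorem ker2 : ∀ (L : ℕ) (j : Fin L) (a b : Bool) (x : V L → ℂ),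
    (∀ w, lab L w j ≠ b → x w = 0) → (∀ v, lab L v j = a → ∑ w, star (W L w v) * x w = 0) →
      x = 0
  | 0, j, _, _, _, _, _ => j.elim0
  | L + 1, j, a, b, x, h1, h2 => by
    induction j using Fin.cases with
    | zero =>
      have e1 : ∀ v, ∑ w : V L, star (W L w v) * x (w, b) = 0 := by
        intro v
        have := h2 (v, a) rfl
        rw [W_succ_sum', Finset.sum_eq_single b] at this
        · rcases mul_eq_zero.1 this with h | h
          · exact absurd (star_eq_zero.1 h) (bf_ne L v b a)
          · exact h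
        · intro b' _ hb'
          have : ∑ w : V L, star (W L w v) * x (w, b') = 0 :=
            Finset.sum_eq_zero fun w _ => by rw [h1 (w, b') hb', mul_zero]
          rw [this, mul_zero]
        · intro h; exact absurd (Finset.mem_univ _) h
      have e2 := W_ker' L (fun w => x (w, b)) e1
      funext y
      obtain ⟨w, b'⟩ := y
      by_cases hb : b' = b
      · subst hb
        exact congrFun e2 w
      · exact h1 (w, b') hb
    | succ j =>
      have e0 : ∀ v : V L, lab L v j = a → ∀ c, ∑ w : V L, star (W L w v) * x (w, c) = 0 := by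
        intro v hv
        have := bf_ker' L v (fun c => ∑ w : V L, star (W L w v) * x (w, c)) (fun b' => by
          have := h2 (v, b') hv
          rwa [W_succ_sum'] at this)
        exact fun c => congrFun this c
      funext y
      obtain ⟨w, b'⟩ := y
      have := ker2 L j a b (fun w => x (w, b')) (fun w hw => h1 (w, b') hw)
        (fun v hv => e0 v hv b')
      exact congrFun this w

end FFT

namespace Cut

open FFT

/-- The cut bound from an injective block. -/
theorem crossing_ge_card {n : ℕ} {α : ℝ} (hα : Real.sin α ≠ 0)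
    (S : Fin n ⊕ Fin n → Prop) [DecidablePred S]
    (l : List ((Fin n ⊕ Fin n) × (Fin n ⊕ Fin n) × Matrix (Fin n ⊕ Fin n) (Fin n ⊕ Fin n) ℂ))
    (hl : ∀ g ∈ l, IsTwoAt g.2.2 g.1 g.2.1) (hp : (l.map fun g => g.2.2).prod = rotX n α)
    (hinj : ∀ x : Fin n ⊕ Fin n → ℂ, (∀ b, S b → x b = 0) →
      (∀ a, S a → ∑ b, rotG n a b * x b = 0) → x = 0) :
    Fintype.card {b // ¬ S b} ≤ crossing S l := by
  have h1 := rank_le_crossing S l hl
  rw [hp, blk_rotX] at h1
  have h2 : (((Real.sin α : ℝ) : ℂ) • blk S (rotG n)).rank = (blk S (rotG n)).rank := by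
    apply Matrix.rank_smul_of_mem_nonZeroDivisors
    rw [mem_nonZeroDivisors_iff_ne_zero]
    exact_mod_cast hα
  rw [h2] at h1
  have h3 : Function.Injective (blk S (rotG n)).mulVecLin := by
    rw [← LinearMap.ker_eq_bot, LinearMap.ker_eq_bot']
    intro y hy
    rw [Matrix.mulVecLin_apply] at hy
    have hx := hinj (fun b => if h : S b then 0 else y ⟨b, h⟩) (fun b hb => by simp [hb])
      (fun a ha => by
        rw [← Fintype.sum_subtype_add_sum_subtype S]
        have e1 : ∑ b : {b // S b}, rotG n a b *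
            (if h : S (b : Fin n ⊕ Fin n) then (0 : ℂ) else y ⟨b, h⟩) = 0 :=
          Finset.sum_eq_zero fun b _ => by simp [b.2]
        rw [e1, zero_add]
        have := congrFun hy ⟨a, ha⟩
        refine Eq.trans (Finset.sum_congr rfl fun b _ => ?_) this
        simp [b.2, blk])
    funext b
    have := congrFun hx b
    simpa [b.2] using this
  have h4 : (blk S (rotG n)).rank = Fintype.card {b // ¬ S b} := by
    rw [Matrix.rank, LinearMap.finrank_range_of_inj h3, Module.finrank_fintype_fun_eq_card]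
  rw [← h4]
  exact h1

lemma rotG_sum_inl (L : ℕ) (x : Fin (2 ^ L) ⊕ Fin (2 ^ L) → ℂ) (v : V L) :
    ∑ b, rotG (2 ^ L) (Sum.inl (outE L v)) b * x b =
      ∑ w : V L, W L v w * x (Sum.inr (inpE L w)) := by
  rw [Fintype.sum_sum_type]
  have : ∑ k : Fin (2 ^ L), rotG (2 ^ L) (Sum.inl (outE L v)) (Sum.inl k) * x (Sum.inl k) = 0 :=
    Finset.sum_eq_zero fun k _ => by simp [rotG]
  rw [this, zero_add, ← Equiv.sum_comp (inpE L)]
  refine Finset.sum_congr rfl fun w _ => ?_
  simp [rotG, W]

lemma rotG_sum_inr (L : ℕ) (x : Fin (2 ^ L) ⊕ Fin (2 ^ L) → ℂ) (v : V L) :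
    ∑ b, rotG (2 ^ L) (Sum.inr (inpE L v)) b * x b =
      -∑ w : V L, star (W L w v) * x (Sum.inl (outE L w)) := by
  rw [Fintype.sum_sum_type]
  have : ∑ k : Fin (2 ^ L), rotG (2 ^ L) (Sum.inr (inpE L v)) (Sum.inr k) * x (Sum.inr k) = 0 :=
    Finset.sum_eq_zero fun k _ => by simp [rotG]
  rw [this, add_zero, ← Equiv.sum_comp (outE L), ← Finset.sum_neg_distrib]
  refine Finset.sum_congr rfl fun w _ => ?_
  simp [rotG, W]

lemma lbl_inl_zero (L : ℕ) (v : V L) : lbl L (Sum.inl (outE L v)) 0 = false :=
  congrFun (lbl_ψ L (v, false)) 0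

lemma lbl_inr_zero (L : ℕ) (v : V L) : lbl L (Sum.inr (inpE L v)) 0 = true :=
  congrFun (lbl_ψ L (v, true)) 0

lemma lbl_inl_succ (L : ℕ) (v : V L) (j : Fin L) :
    lbl L (Sum.inl (outE L v)) j.succ = lab L v j :=
  congrFun (lbl_ψ L (v, false)) j.succ

lemma lbl_inr_succ (L : ℕ) (v : V L) (j : Fin L) :
    lbl L (Sum.inr (inpE L v)) j.succ = lab L v j :=
  congrFun (lbl_ψ L (v, true)) j.succ

/-- Every bit is crossed by at least `2 ^ L` gates. -/
theorem bit_ge (L : ℕ) {α : ℝ} (hα : Real.sin α ≠ 0)
    (l : List ((Fin (2 ^ L) ⊕ Fin (2 ^ L)) × (Fin (2 ^ L) ⊕ Fin (2 ^ L)) ×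
      Matrix (Fin (2 ^ L) ⊕ Fin (2 ^ L)) (Fin (2 ^ L) ⊕ Fin (2 ^ L)) ℂ))
    (hl : ∀ g ∈ l, IsTwoAt g.2.2 g.1 g.2.1) (hp : (l.map fun g => g.2.2).prod = rotX (2 ^ L) α)
    (q : Fin (L + 1)) : 2 ^ L ≤ crossing (fun a => lbl L a q = true) l := by
  have hcard : Fintype.card {b : Fin (2 ^ L) ⊕ Fin (2 ^ L) // ¬ (lbl L b q = true)} = 2 ^ L := by
    have e0 : Fintype.card {b : Fin (2 ^ L) ⊕ Fin (2 ^ L) // ¬ (lbl L b q = true)} =
        Fintype.card {v : Fin (L + 1) → Bool // ¬ (v q = true)} :=
      Fintype.card_congr ((lbl L).subtypeEquiv fun b => Iff.rfl)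
    have e1 : Fintype.card {v : Fin (L + 1) → Bool // ¬ (v q = true)} =
        Fintype.card {v : Fin (L + 1) → Bool // v q = true} := by
      refine Fintype.card_congr ⟨fun v => ⟨Function.update v.1 q true, by simp⟩,
        fun v => ⟨Function.update v.1 q false, by simp⟩, fun v => ?_, fun v => ?_⟩
      · apply Subtype.ext
        have hv : v.1 q = false := by simpa using v.2
        simp only [Function.update_idem]
        rw [← hv, Function.update_eq_self]
      · apply Subtype.ext
        have hv : v.1 q = true := v.2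
        simp only [Function.update_idem]
        obtain ⟨u, hu⟩ := v
        funext i
        by_cases hi : i = q
        · subst hi
          rw [Function.update_self, hv]
        · rw [Function.update_of_ne hi]
    have e2 := Fintype.card_subtype_compl (fun v : Fin (L + 1) → Bool => v q = true)
    have e3 : Fintype.card (Fin (L + 1) → Bool) = 2 ^ L * 2 := by simp [pow_succ]
    have e4 : Fintype.card {v : Fin (L + 1) → Bool // v q = true} ≤
        Fintype.card (Fin (L + 1) → Bool) := Fintype.card_subtype_le _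
    omega
  refine hcard.symm.le.trans (crossing_ge_card hα _ l hl hp fun x hx1 hx2 => ?_)
  induction q using Fin.cases with
  | zero =>
    have h1 : (fun w : V L => x (Sum.inl (outE L w))) = 0 := by
      refine W_ker' L _ fun v => ?_
      have := hx2 (Sum.inr (inpE L v)) (lbl_inr_zero L v)
      rw [rotG_sum_inr] at this
      exact neg_eq_zero.1 this
    funext a
    rcases a with k | k
    · have := congrFun h1 ((outE L).symm k)
      simpa using this
    · have : lbl L (Sum.inr k) 0 = true := by
        have := lbl_inr_zero L ((inpE L).symm k)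
        simpa using this
      exact hx1 _ this
  | succ j =>
    have h1 : (fun w : V L => x (Sum.inr (inpE L w))) = 0 := by
      refine ker1 L j true false _ ?_ ?_
      · intro w hw
        refine hx1 _ ?_
        rw [lbl_inr_succ]
        simpa using hw
      · intro v hv
        have := hx2 (Sum.inl (outE L v)) (by rw [lbl_inl_succ]; exact hv)
        rwa [rotG_sum_inl] at this
    have h2 : (fun w : V L => x (Sum.inl (outE L w))) = 0 := by
      refine ker2 L j true false _ ?_ ?_
      · intro w hw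
        refine hx1 _ ?_
        rw [lbl_inl_succ]
        simpa using hw
      · intro v hv
        have := hx2 (Sum.inr (inpE L v)) (by rw [lbl_inr_succ]; exact hv)
        rw [rotG_sum_inr] at this
        exact neg_eq_zero.1 this
    funext a
    rcases a with k | k
    · have := congrFun h2 ((outE L).symm k)
      simpa using this
    · have := congrFun h1 ((inpE L).symm k)
      simpa using this

lemma sum_crossing {ι : Type*} [Fintype ι] [DecidableEq ι] {M : ℕ} (φ : ι → (Fin M → Bool))
    (l : List (ι × ι × Matrix ι ι ℂ)) (hc : ∀ g ∈ l, hammingDist (φ g.1) (φ g.2.1) = 1) :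
    ∑ q : Fin M, crossing (fun a => φ a q = true) l = l.length := by
  induction l with
  | nil => simp [crossing]
  | cons g l ih =>
    have ih' := ih (fun g' hg' => hc g' (List.mem_cons_of_mem _ hg'))
    have h4 : ∀ q, crossing (fun a => φ a q = true) (g :: l) =
        (if (φ g.1 q = true ↔ φ g.2.1 q = true) then 0 else 1) +
          crossing (fun a => φ a q = true) l := by
      intro q
      simp [crossing]
    rw [Finset.sum_congr rfl fun q _ => h4 q, Finset.sum_add_distrib, ih', List.length_cons,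
      add_comm]
    congr 1
    have h5 := hc g List.mem_cons_self
    rw [hammingDist, Finset.card_filter] at h5
    refine Eq.trans (Finset.sum_congr rfl fun q _ => ?_) h5
    cases φ g.1 q <;> cases φ g.2.1 q <;> simp

/-- **Exact lower bound for the labelling of the fast Fourier transform.** -/
theorem cube_exact (L : ℕ) {α : ℝ} (hα : Real.sin α ≠ 0)
    (l : List ((Fin (2 ^ L) ⊕ Fin (2 ^ L)) × (Fin (2 ^ L) ⊕ Fin (2 ^ L)) ×
      Matrix (Fin (2 ^ L) ⊕ Fin (2 ^ L)) (Fin (2 ^ L) ⊕ Fin (2 ^ L)) ℂ))
    (hl : ∀ g ∈ l, IsTwoAt g.2.2 g.1 g.2.1) (hp : (l.map fun g => g.2.2).prod = rotX (2 ^ L) α)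
    (hc : ∀ g ∈ l, hammingDist (lbl L g.1) (lbl L g.2.1) = 1) :
    (L + 1) * 2 ^ L ≤ l.length := by
  rw [← sum_crossing (fun a => lbl L a) l hc]
  calc (L + 1) * 2 ^ L = ∑ _q : Fin (L + 1), 2 ^ L := by simp
    _ ≤ _ := Finset.sum_le_sum fun q _ => bit_ge L hα l hl hp q

end Cut

end RotFourier
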