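import Pool.Agent.Lib.MP_7fb13b_lc.H35.Cut

/-!
# MP_7fb13b_lc : the fast Fourier transform in the hypercube network
-/

open Matrix

set_option linter.unusedSectionVars false

namespace RotFourier

namespace FFT

/-- `U` has an algorithm with `m` steps whose gates act along `E`. -/
def HasAlg {ι : Type*} [Fintype ι] [DecidableEq ι] (E : ι → ι → Prop) (m : ℕ)
    (U : Matrix ι ι ℂ) : Prop :=
  ∃ l : List (ι × ι × Matrix ι ι ℂ), (∀ g ∈ l, IsTwoAt g.2.2 g.1 g.2.1 ∧ E g.1 g.2.1) ∧
    (l.map fun g => g.2.2).prod = U ∧ l.length = m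

section basic

variable {ι κ : Type*} [Fintype ι] [DecidableEq ι] [Fintype κ] [DecidableEq κ]
  {E : ι → ι → Prop} {E' : κ → κ → Prop} {m m' : ℕ} {U U' : Matrix ι ι ℂ}

lemma HasAlg.one : HasAlg E 0 (1 : Matrix ι ι ℂ) := ⟨[], by simp, by simp, rfl⟩

lemma HasAlg.mul (h : HasAlg E m U) (h' : HasAlg E m' U') : HasAlg E (m + m') (U * U') := by
  obtain ⟨l, h1, h2, h3⟩ := h
  obtain ⟨l', h1', h2', h3'⟩ := h'
  refine ⟨l ++ l', fun g hg => ?_, by rw [List.map_append, List.prod_append, h2, h2'],
    by rw [List.length_append, h3, h3']⟩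
  rcases List.mem_append.1 hg with hg | hg
  · exact h1 g hg
  · exact h1' g hg

lemma HasAlg.gate {R : Matrix ι ι ℂ} {i j : ι} (h : IsTwoAt R i j) (hE : E i j) :
    HasAlg E 1 R := ⟨[(i, j, R)], by simpa using ⟨h, hE⟩, by simp, rfl⟩

lemma isTwoAt_conjTranspose {R : Matrix ι ι ℂ} {i j : ι} (h : IsTwoAt R i j) :
    IsTwoAt Rᴴ i j := by
  refine ⟨h.1, ?_, fun a b hab => ?_⟩
  · rw [Matrix.mem_unitaryGroup_iff, Matrix.star_eq_conjTranspose,
      Matrix.conjTranspose_conjTranspose, ← Matrix.star_eq_conjTranspose]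
    exact Matrix.mem_unitaryGroup_iff'.1 h.2.1
  · rw [Matrix.conjTranspose_apply, h.2.2 b a (fun hh => hab ⟨hh.2, hh.1⟩)]
    by_cases e : a = b
    · subst e; simp
    · rw [Matrix.one_apply_ne e, Matrix.one_apply_ne (Ne.symm e), star_zero]

lemma HasAlg.conjTranspose (h : HasAlg E m U) : HasAlg E m Uᴴ := by
  obtain ⟨l, h1, h2, h3⟩ := h
  subst h2 h3
  induction l with
  | nil => exact ⟨[], by simp, by simp, rfl⟩
  | cons g l ih =>
    have ih' := ih fun g' hg' => h1 g' (List.mem_cons_of_mem _ hg')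
    have hg := h1 g List.mem_cons_self
    rw [List.map_cons, List.prod_cons, Matrix.conjTranspose_mul, List.length_cons]
    exact ih'.mul (HasAlg.gate (isTwoAt_conjTranspose hg.1) hg.2)

/-- Carrying an algorithm along a multiplicative map. -/
lemma HasAlg.map (F : Matrix ι ι ℂ → Matrix κ κ ℂ) (p : ι → κ) (h1 : F 1 = 1)
    (hmul : ∀ A B, F (A * B) = F A * F B)
    (hF : ∀ R i j, IsTwoAt R i j → IsTwoAt (F R) (p i) (p j)) (hE : ∀ i j, E i j → E' (p i) (p j))
    (h : HasAlg E m U) : HasAlg E' m (F U) := by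
  obtain ⟨l, hl, h2, h3⟩ := h
  subst h2 h3
  induction l with
  | nil => exact ⟨[], by simp, by simp [h1], rfl⟩
  | cons g l ih =>
    have ih' := ih fun g' hg' => hl g' (List.mem_cons_of_mem _ hg')
    have hg := hl g List.mem_cons_self
    rw [List.map_cons, List.prod_cons, hmul, List.length_cons, add_comm]
    exact (HasAlg.gate (hF _ _ _ hg.1) (hE _ _ hg.2)).mul ih'

/-- Relabelling. -/
lemma HasAlg.reindex (e : ι ≃ κ) (hE : ∀ i j, E i j → E' (e i) (e j)) (h : HasAlg E m U) :
    HasAlg E' m (U.submatrix e.symm e.symm) := by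
  refine HasAlg.map (fun A => A.submatrix e.symm e.symm) e ?_ ?_ ?_ hE h
  · exact Matrix.submatrix_one_equiv _
  · intro A B
    exact (Matrix.submatrix_mul_equiv A B e.symm e.symm e.symm).symm
  · intro R i j hR
    refine ⟨e.injective.ne hR.1, ?_, fun a b hab => ?_⟩
    · rw [Matrix.mem_unitaryGroup_iff, Matrix.star_eq_conjTranspose, Matrix.conjTranspose_submatrix,
        Matrix.submatrix_mul_equiv, ← Matrix.star_eq_conjTranspose,
        (Matrix.mem_unitaryGroup_iff.1 hR.2.1), Matrix.submatrix_one_equiv]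
    · rw [Matrix.submatrix_apply, hR.2.2]
      · by_cases e' : a = b
        · subst e'; simp
        · rw [Matrix.one_apply_ne e', Matrix.one_apply_ne (e.symm.injective.ne e')]
      · rintro ⟨h1, h2⟩
        refine hab ⟨?_, ?_⟩
        · rcases h1 with h1 | h1
          · left; rw [← h1]; simp
          · right; rw [← h1]; simp
        · rcases h2 with h2 | h2
          · left; rw [← h2]; simp
          · right; rw [← h2]; simp

/-- Acting with `U` on the block `c`. -/
def onBlock (c : Bool) (U : Matrix ι ι ℂ) : Matrix (ι × Bool) (ι × Bool) ℂ :=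
  Matrix.blockDiagonal fun b : Bool => if b = c then U else 1

lemma onBlock_one (c : Bool) : onBlock c (1 : Matrix ι ι ℂ) = 1 := by
  unfold onBlock
  simp only [ite_self]
  exact Matrix.blockDiagonal_one

lemma onBlock_mul (c : Bool) (A B : Matrix ι ι ℂ) :
    onBlock c (A * B) = onBlock c A * onBlock c B := by
  unfold onBlock
  rw [← Matrix.blockDiagonal_mul]
  congr 1
  funext b
  split_ifs <;> simp

lemma onBlock_conjTranspose (c : Bool) (A : Matrix ι ι ℂ) :
    (onBlock c A)ᴴ = onBlock c Aᴴ := by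
  unfold onBlock
  rw [Matrix.blockDiagonal_conjTranspose]
  congr 1
  funext b
  split_ifs <;> simp

lemma HasAlg.onBlock {E2 : ι × Bool → ι × Bool → Prop} (c : Bool)
    (hE : ∀ i j, E i j → E2 (i, c) (j, c)) (h : HasAlg E m U) : HasAlg E2 m (onBlock c U) := by
  refine HasAlg.map (FFT.onBlock c) (fun i => (i, c)) (onBlock_one c) (onBlock_mul c) ?_ hE h
  intro R i j hR
  refine ⟨fun h => hR.1 (Prod.ext_iff.1 h).1, ?_, ?_⟩
  · rw [Matrix.mem_unitaryGroup_iff, Matrix.star_eq_conjTranspose, onBlock_conjTranspose,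
      ← onBlock_mul, ← Matrix.star_eq_conjTranspose, (Matrix.mem_unitaryGroup_iff.1 hR.2.1),
      onBlock_one]
  · rintro ⟨a, b⟩ ⟨a', b'⟩ hab
    simp only [FFT.onBlock, Matrix.blockDiagonal_apply]
    by_cases hb : b = b'
    · subst hb
      by_cases hc : b = c
      · subst hc
        simp only [if_true]
        rw [hR.2.2]
        · by_cases e' : a = a'
          · subst e'; simp
          · rw [Matrix.one_apply_ne e', Matrix.one_apply_ne (fun h => e' (Prod.ext_iff.1 h).1)]
        · rintro ⟨h1, h2⟩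
          refine hab ⟨?_, ?_⟩
          · rcases h1 with h1 | h1 <;> simp [h1]
          · rcases h2 with h2 | h2 <;> simp [h2]
      · simp only [if_true, hc, if_false]
        by_cases e' : a = a'
        · subst e'; simp
        · rw [Matrix.one_apply_ne e', Matrix.one_apply_ne (fun h => e' (Prod.ext_iff.1 h).1)]
    · rw [if_neg hb, Matrix.one_apply_ne (fun h => hb (Prod.ext_iff.1 h).2)]

/-- Acting with the `2 × 2` matrices `t v` on the pairs `{(v, false), (v, true)}`. -/
def onPairs (t : ι → Matrix Bool Bool ℂ) : Matrix (ι × Bool) (ι × Bool) ℂ :=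
  (Matrix.blockDiagonal t).submatrix Prod.swap Prod.swap

lemma onPairs_apply (t : ι → Matrix Bool Bool ℂ) (v w : ι) (c b : Bool) :
    onPairs t (v, c) (w, b) = if v = w then t v c b else 0 := by
  simp [onPairs, Matrix.blockDiagonal_apply]

lemma onPairs_mul (t t' : ι → Matrix Bool Bool ℂ) :
    onPairs (fun v => t v * t' v) = onPairs t * onPairs t' := by
  unfold onPairs
  rw [Matrix.blockDiagonal_mul]
  exact (Matrix.submatrix_mul_equiv _ _ _ (Equiv.prodComm _ _) _).symm

lemma onPairs_one : onPairs (fun _ : ι => (1 : Matrix Bool Bool ℂ)) = 1 := by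
  unfold onPairs
  have : (Matrix.blockDiagonal fun _ : ι => (1 : Matrix Bool Bool ℂ)) = 1 :=
    Matrix.blockDiagonal_one
  rw [this]
  exact Matrix.submatrix_one_equiv (Equiv.prodComm _ _)

lemma onPairs_conjTranspose (t : ι → Matrix Bool Bool ℂ) :
    (onPairs t)ᴴ = onPairs (fun v => (t v)ᴴ) := by
  unfold onPairs
  rw [Matrix.conjTranspose_submatrix, Matrix.blockDiagonal_conjTranspose]

lemma isTwoAt_onPairs (t : Matrix Bool Bool ℂ) (ht : t * tᴴ = 1) (v : ι) :
    IsTwoAt (onPairs fun w => if w = v then t else 1) (v, false) (v, true) := by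
  refine ⟨by simp, ?_, ?_⟩
  · rw [Matrix.mem_unitaryGroup_iff, Matrix.star_eq_conjTranspose, onPairs_conjTranspose,
      ← onPairs_mul, ← onPairs_one]
    congr 1
    funext w
    split_ifs
    · exact ht
    · simp
  · rintro ⟨a, b⟩ ⟨a', b'⟩ hab
    rw [onPairs_apply]
    by_cases ha : a = a'
    · subst ha
      by_cases hv : a = v
      · subst hv
        exfalso
        apply hab
        cases b <;> cases b' <;> simp
      · simp only [if_true, hv, if_false]
        by_cases hb : b = b'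
        · subst hb; simp
        · rw [Matrix.one_apply_ne hb, Matrix.one_apply_ne (fun h => hb (Prod.ext_iff.1 h).2)]
    · rw [if_neg ha, Matrix.one_apply_ne (fun h => ha (Prod.ext_iff.1 h).1)]

lemma HasAlg.onPairs {E2 : ι × Bool → ι × Bool → Prop} (hE : ∀ v, E2 (v, false) (v, true))
    (t : ι → Matrix Bool Bool ℂ) (ht : ∀ v, t v * (t v)ᴴ = 1) :
    HasAlg E2 (Fintype.card ι) (FFT.onPairs t) := by
  classical
  have key : ∀ s : Finset ι, HasAlg E2 s.card (FFT.onPairs fun v => if v ∈ s then t v else 1) := by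
    intro s
    induction s using Finset.induction_on with
    | empty =>
      have : (FFT.onPairs fun v : ι => if v ∈ (∅ : Finset ι) then t v else 1) = 1 := by
        rw [← onPairs_one]
        congr 1
      rw [this, Finset.card_empty]
      exact HasAlg.one
    | insert v s hv ih =>
      have : (FFT.onPairs fun w : ι => if w ∈ insert v s then t w else 1) =
          (FFT.onPairs fun w => if w = v then t v else 1) *
            FFT.onPairs fun w => if w ∈ s then t w else 1 := by
        rw [← onPairs_mul]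
        congr 1
        funext w
        by_cases hw : w = v
        · subst hw
          simp [hv]
        · simp [hw]
      rw [this, Finset.card_insert_of_notMem hv, add_comm]
      exact (HasAlg.gate (isTwoAt_onPairs (t v) (ht v) v) (hE v)).mul ih
  have h := key Finset.univ
  simpa using h

end basic

/-! ### Bit strings -/

/-- Bit strings of length `L`. -/
def V : ℕ → Type
  | 0 => Unit
  | L + 1 => V L × Bool

instance instFintypeV : ∀ L, Fintype (V L)
  | 0 => inferInstanceAs (Fintype Unit)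
  | L + 1 => letI := instFintypeV L; inferInstanceAs (Fintype (V L × Bool))

instance instDecEqV : ∀ L, DecidableEq (V L)
  | 0 => inferInstanceAs (DecidableEq Unit)
  | L + 1 => letI := instDecEqV L; inferInstanceAs (DecidableEq (V L × Bool))

/-- The edges of the cube. -/
def Edge : ∀ L, V L → V L → Prop
  | 0 => fun _ _ => False
  | L + 1 => fun x y => (Edge L x.1 y.1 ∧ x.2 = y.2) ∨ (x.1 = y.1 ∧ x.2 ≠ y.2)

/-- The input index of a bit string. -/
def inp : ∀ L, V L → ℕ
  | 0 => fun _ => 0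
  | L + 1 => fun x => inp L x.1 + 2 ^ L * (if x.2 then 1 else 0)

/-- The output index of a bit string (the bits are reversed). -/
def out : ∀ L, V L → ℕ
  | 0 => fun _ => 0
  | L + 1 => fun x => 2 * out L x.1 + (if x.2 then 1 else 0)

lemma inp_lt : ∀ L (v : V L), inp L v < 2 ^ L
  | 0, _ => by simp [inp]
  | L + 1, x => by
    have h := inp_lt L x.1
    rw [pow_succ]
    show inp L x.1 + 2 ^ L * (if x.2 then 1 else 0) < 2 ^ L * 2
    split_ifs <;> omega

lemma out_lt : ∀ L (v : V L), out L v < 2 ^ L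
  | 0, _ => by simp [out]
  | L + 1, x => by
    have h := out_lt L x.1
    rw [pow_succ]
    show 2 * out L x.1 + (if x.2 then 1 else 0) < 2 ^ L * 2
    split_ifs <;> omega

lemma inp_inj : ∀ L (v w : V L), inp L v = inp L w → v = w
  | 0, _, _, _ => rfl
  | L + 1, x, y, h => by
    have h1 := inp_lt L x.1
    have h2 := inp_lt L y.1
    change inp L x.1 + 2 ^ L * (if x.2 then 1 else 0) =
      inp L y.1 + 2 ^ L * (if y.2 then 1 else 0) at h
    obtain ⟨x1, x2⟩ := x
    obtain ⟨y1, y2⟩ := y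
    cases x2 <;> cases y2 <;> simp at h h1 h2
    · rw [inp_inj L x1 y1 h]
    · omega
    · omega
    · rw [inp_inj L x1 y1 h]

lemma out_inj : ∀ L (v w : V L), out L v = out L w → v = w
  | 0, _, _, _ => rfl
  | L + 1, x, y, h => by
    change 2 * out L x.1 + (if x.2 then 1 else 0) = 2 * out L y.1 + (if y.2 then 1 else 0) at h
    obtain ⟨x1, x2⟩ := x
    obtain ⟨y1, y2⟩ := y
    cases x2 <;> cases y2 <;> simp at h
    · rw [out_inj L x1 y1 h]
    · omega
    · omega
    · rw [out_inj L x1 y1 h]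

lemma card_V : ∀ L, Fintype.card (V L) = 2 ^ L
  | 0 => rfl
  | L + 1 => by
    have : Fintype.card (V (L + 1)) = Fintype.card (V L) * Fintype.card Bool :=
      Fintype.card_prod _ _
    rw [this, card_V L, Fintype.card_bool, pow_succ]

/-- Input indices. -/
noncomputable def inpE (L : ℕ) : V L ≃ Fin (2 ^ L) :=
  Equiv.ofBijective (fun v => ⟨inp L v, inp_lt L v⟩) <| by
    rw [Fintype.bijective_iff_injective_and_card]
    refine ⟨fun v w h => inp_inj L v w (Fin.ext_iff.1 h), ?_⟩
    rw [card_V, Fintype.card_fin]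

/-- Output indices. -/
noncomputable def outE (L : ℕ) : V L ≃ Fin (2 ^ L) :=
  Equiv.ofBijective (fun v => ⟨out L v, out_lt L v⟩) <| by
    rw [Fintype.bijective_iff_injective_and_card]
    refine ⟨fun v w h => out_inj L v w (Fin.ext_iff.1 h), ?_⟩
    rw [card_V, Fintype.card_fin]

/-- The Fourier matrix on bit strings. -/
noncomputable def W (L : ℕ) : Matrix (V L) (V L) ℂ :=
  (dft (2 ^ L)).submatrix (outE L) (inpE L)

/-- The butterflies. -/
noncomputable def bf (L : ℕ) (w : V L) : Matrix Bool Bool ℂ := fun c b =>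
  ((Real.sqrt 2 : ℝ) : ℂ)⁻¹ *
    ((if c then Complex.exp (-2 * Real.pi * Complex.I * (inp L w : ℂ) / ((2 ^ (L + 1) : ℕ) : ℂ))
      else 1) * (if c ∧ b then -1 else 1))

lemma bf_unitary (L : ℕ) (w : V L) : bf L w * (bf L w)ᴴ = 1 := by
  set ω := Complex.exp (-2 * Real.pi * Complex.I * (inp L w : ℂ) / ((2 ^ (L + 1) : ℕ) : ℂ)) with hω
  have h1 : ω * star ω = 1 := by
    have e : (-2 * Real.pi * Complex.I * (inp L w : ℂ) / ((2 ^ (L + 1) : ℕ) : ℂ)) =
        ((-2 * Real.pi * (inp L w : ℝ) / ((2 ^ (L + 1) : ℕ) : ℝ) : ℝ) : ℂ) * Complex.I := by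
      push_cast; ring
    rw [hω, e, Complex.star_def, Complex.mul_conj, Complex.normSq_eq_norm_sq,
      Complex.norm_exp_ofReal_mul_I]
    simp
  have h2 : (((Real.sqrt 2 : ℝ) : ℂ))⁻¹ * (((Real.sqrt 2 : ℝ) : ℂ))⁻¹ = 2⁻¹ := by
    rw [← mul_inv, ← Complex.ofReal_mul, Real.mul_self_sqrt (by norm_num)]
    simp
  have h3 : star (((Real.sqrt 2 : ℝ) : ℂ))⁻¹ = (((Real.sqrt 2 : ℝ) : ℂ))⁻¹ := by
    rw [star_inv₀, Complex.star_def, Complex.conj_ofReal]
  have hff : bf L w false false = (((Real.sqrt 2 : ℝ) : ℂ))⁻¹ := by simp [bf]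
  have hft : bf L w false true = (((Real.sqrt 2 : ℝ) : ℂ))⁻¹ := by simp [bf]
  have htf : bf L w true false = (((Real.sqrt 2 : ℝ) : ℂ))⁻¹ * ω := by simp [bf, hω]
  have htt : bf L w true true = -((((Real.sqrt 2 : ℝ) : ℂ))⁻¹ * ω) := by simp [bf, hω]
  ext a b
  rw [Matrix.mul_apply, Fintype.sum_bool]
  simp only [Matrix.conjTranspose_apply]
  cases a <;> cases b
  · rw [hft, hff, h3, h2, Matrix.one_apply_eq]; norm_num
  · rw [hft, hff, htt, htf, star_neg, star_mul, h3, Matrix.one_apply_ne (by simp)]; ring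
  · rw [hft, hff, htt, htf, h3, Matrix.one_apply_ne (by simp)]; ring
  · rw [htt, htf, star_neg, star_mul, h3, Matrix.one_apply_eq]
    calc _ = 2 * ((((Real.sqrt 2 : ℝ) : ℂ))⁻¹ * (((Real.sqrt 2 : ℝ) : ℂ))⁻¹) * (ω * star ω) := by
          ring
      _ = 1 := by rw [h1, h2]; norm_num

lemma W_succ_apply (L : ℕ) (v w : V L) (c b : Bool) :
    (W (L + 1) : Matrix (V L × Bool) (V L × Bool) ℂ) (v, c) (w, b) =
      W L v w * bf L w c b := by
  show dft (2 ^ (L + 1)) (outE (L + 1) (v, c)) (inpE (L + 1) (w, b)) =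
    dft (2 ^ L) (outE L v) (inpE L w) * bf L w c b
  have ho : ((outE (L + 1) (v, c) : Fin (2 ^ (L + 1))) : ℕ) =
      2 * out L v + (if c then 1 else 0) := rfl
  have hi : ((inpE (L + 1) (w, b) : Fin (2 ^ (L + 1))) : ℕ) =
      inp L w + 2 ^ L * (if b then 1 else 0) := rfl
  have ho' : ((outE L v : Fin (2 ^ L)) : ℕ) = out L v := rfl
  have hi' : ((inpE L w : Fin (2 ^ L)) : ℕ) = inp L w := rfl
  unfold dft bf
  rw [ho, hi, ho', hi']
  have hsq : ((Real.sqrt ((2 ^ (L + 1) : ℕ) : ℝ) : ℝ) : ℂ)⁻¹ =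
      ((Real.sqrt ((2 ^ L : ℕ) : ℝ) : ℝ) : ℂ)⁻¹ * ((Real.sqrt 2 : ℝ) : ℂ)⁻¹ := by
    rw [← mul_inv, ← Complex.ofReal_mul, ← Real.sqrt_mul (by positivity)]
    congr 4
    push_cast; ring
  rw [hsq]
  have h2L : ((2 : ℂ) ^ L) ≠ 0 := pow_ne_zero _ two_ne_zero
  -- the exponentials
  have hexp : Complex.exp (-2 * Real.pi * Complex.I *
        ((2 * out L v + (if c then 1 else 0) : ℕ) : ℂ) *
        ((inp L w + 2 ^ L * (if b then 1 else 0) : ℕ) : ℂ) / ((2 ^ (L + 1) : ℕ) : ℂ)) =
      Complex.exp (-2 * Real.pi * Complex.I * ((out L v : ℕ) : ℂ) * ((inp L w : ℕ) : ℂ) /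
        ((2 ^ L : ℕ) : ℂ)) *
      ((if c then Complex.exp (-2 * Real.pi * Complex.I * (inp L w : ℂ) /
          ((2 ^ (L + 1) : ℕ) : ℂ)) else 1) * (if c ∧ b then -1 else 1)) := by
    have hper : ∀ k : ℕ, Complex.exp (-2 * Real.pi * Complex.I * (k : ℂ)) = 1 := by
      intro k
      have : (-2 * Real.pi * Complex.I * (k : ℂ)) = ((-(k : ℤ) : ℤ) : ℂ) *
          (2 * Real.pi * Complex.I) := by
        push_cast; ring
      rw [this]
      exact Complex.exp_int_mul_two_pi_mul_I _
    have hneg : Complex.exp (-2 * Real.pi * Complex.I / 2) = -1 := by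
      have : (-2 * Real.pi * Complex.I / 2 : ℂ) = -(Real.pi * Complex.I) := by ring
      rw [this, Complex.exp_neg, Complex.exp_pi_mul_I]
      norm_num
    have hL : ((2 ^ (L + 1) : ℕ) : ℂ) = 2 * 2 ^ L := by push_cast; ring
    have hL' : ((2 ^ L : ℕ) : ℂ) = 2 ^ L := by push_cast; rfl
    rw [hL, hL']
    cases c <;> cases b
    · have e1 : (-2 * Real.pi * Complex.I *
          ((2 * out L v + (if false = true then 1 else 0) : ℕ) : ℂ) *
          ((inp L w + 2 ^ L * (if false = true then 1 else 0) : ℕ) : ℂ) / (2 * 2 ^ L) : ℂ) =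
          -2 * Real.pi * Complex.I * ((out L v : ℕ) : ℂ) * ((inp L w : ℕ) : ℂ) / 2 ^ L := by
        simp only [Bool.false_eq_true, if_false, mul_zero, add_zero]
        push_cast
        field_simp
      rw [e1]
      simp
    · have e1 : (-2 * Real.pi * Complex.I *
          ((2 * out L v + (if false = true then 1 else 0) : ℕ) : ℂ) *
          ((inp L w + 2 ^ L * (if true = true then 1 else 0) : ℕ) : ℂ) / (2 * 2 ^ L) : ℂ) =
          -2 * Real.pi * Complex.I * ((out L v : ℕ) : ℂ) * ((inp L w : ℕ) : ℂ) / 2 ^ L +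
            -2 * Real.pi * Complex.I * (out L v : ℂ) := by
        simp only [Bool.false_eq_true, if_false, if_true, mul_one, add_zero]
        push_cast
        field_simp
        ring
      rw [e1, Complex.exp_add, hper]
      simp
    · have e1 : (-2 * Real.pi * Complex.I *
          ((2 * out L v + (if true = true then 1 else 0) : ℕ) : ℂ) *
          ((inp L w + 2 ^ L * (if false = true then 1 else 0) : ℕ) : ℂ) / (2 * 2 ^ L) : ℂ) =
          -2 * Real.pi * Complex.I * ((out L v : ℕ) : ℂ) * ((inp L w : ℕ) : ℂ) / 2 ^ L +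
            -2 * Real.pi * Complex.I * (inp L w : ℂ) / (2 * 2 ^ L) := by
        simp only [Bool.false_eq_true, if_false, if_true, mul_zero, add_zero]
        push_cast
        field_simp
        ring
      rw [e1, Complex.exp_add]
      simp
    · have e1 : (-2 * Real.pi * Complex.I *
          ((2 * out L v + (if true = true then 1 else 0) : ℕ) : ℂ) *
          ((inp L w + 2 ^ L * (if true = true then 1 else 0) : ℕ) : ℂ) / (2 * 2 ^ L) : ℂ) =
          -2 * Real.pi * Complex.I * ((out L v : ℕ) : ℂ) * ((inp L w : ℕ) : ℂ) / 2 ^ L +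
            -2 * Real.pi * Complex.I * (inp L w : ℂ) / (2 * 2 ^ L) +
            -2 * Real.pi * Complex.I * (out L v : ℂ) + -2 * Real.pi * Complex.I / 2 := by
        simp only [if_true, mul_one]
        push_cast
        field_simp
        ring
      rw [e1, Complex.exp_add, Complex.exp_add, Complex.exp_add, hper, hneg]
      simp
  rw [hexp]
  ring

lemma W_succ (L : ℕ) : W (L + 1) =
    (onBlock false (W L) * onBlock true (W L)) * onPairs (bf L) := by
  have hbd : onBlock false (W L) * onBlock true (W L) =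
      Matrix.blockDiagonal fun _ : Bool => W L := by
    unfold onBlock
    rw [← Matrix.blockDiagonal_mul]
    congr 1
    funext b
    cases b <;> simp
  rw [hbd]
  ext x y
  obtain ⟨v, c⟩ := x
  obtain ⟨w, b⟩ := y
  have hR : ((Matrix.blockDiagonal fun _ : Bool => W L) * onPairs (bf L)) (v, c) (w, b) =
      W L v w * bf L w c b := by
    rw [Matrix.mul_apply, Fintype.sum_prod_type]
    rw [Finset.sum_eq_single w]
    · rw [Finset.sum_eq_single c]
      · rw [Matrix.blockDiagonal_apply, onPairs_apply, if_pos rfl, if_pos rfl]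
      · intro b' _ hb'
        rw [Matrix.blockDiagonal_apply, if_neg (Ne.symm hb'), zero_mul]
      · intro h; exact absurd (Finset.mem_univ _) h
    · intro u _ hu
      refine Finset.sum_eq_zero fun b' _ => ?_
      rw [onPairs_apply, if_neg hu, mul_zero]
    · intro h; exact absurd (Finset.mem_univ _) h
  exact (W_succ_apply L v w c b).trans hR.symm

/-- Number of butterflies. -/
def cost : ℕ → ℕ
  | 0 => 0
  | L + 1 => cost L + cost L + 2 ^ L

lemma two_mul_cost : ∀ L, 2 * cost L = L * 2 ^ L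
  | 0 => rfl
  | L + 1 => by
    have h := two_mul_cost L
    have : cost (L + 1) = cost L + cost L + 2 ^ L := rfl
    rw [this, pow_succ]
    nlinarith

lemma W_unitary (L : ℕ) : W L * (W L)ᴴ = 1 := by
  unfold W
  rw [Matrix.conjTranspose_submatrix, Matrix.submatrix_mul_equiv,
    dft_mul_conjTranspose (by positivity), Matrix.submatrix_one_equiv]

lemma W_unitary' (L : ℕ) : (W L)ᴴ * W L = 1 := mul_eq_one_comm.1 (W_unitary L)

/-- **The fast Fourier transform** in the cube. -/
theorem hasAlg_W : ∀ L, HasAlg (Edge L) (cost L) (W L)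
  | 0 => by
    have : W 0 = 1 := by
      ext v w
      have hvw : v = w := inp_inj 0 v w rfl
      subst hvw
      rw [Matrix.one_apply_eq]
      have : (W 0) v v = dft 1 (outE 0 v) (inpE 0 v) := rfl
      rw [this]
      have h1 : ((outE 0 v : Fin (2 ^ 0)) : ℕ) = 0 := rfl
      unfold dft
      rw [h1]
      simp
    rw [this]
    exact HasAlg.one
  | L + 1 => by
    rw [W_succ]
    have h1 := hasAlg_W L
    have h2 : HasAlg (Edge (L + 1)) (cost L) (onBlock false (W L)) :=
      HasAlg.onBlock (E2 := Edge (L + 1)) false (fun i j h => Or.inl ⟨h, rfl⟩) h1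
    have h3 : HasAlg (Edge (L + 1)) (cost L) (onBlock true (W L)) :=
      HasAlg.onBlock (E2 := Edge (L + 1)) true (fun i j h => Or.inl ⟨h, rfl⟩) h1
    have h4 : HasAlg (Edge (L + 1)) (Fintype.card (V L)) (onPairs (bf L)) :=
      HasAlg.onPairs (E2 := Edge (L + 1)) (fun v => Or.inr ⟨rfl, by simp⟩) (bf L) (bf_unitary L)
    rw [card_V] at h4
    exact (h2.mul h3).mul h4

/-- The rotations. -/
noncomputable def rot (α : ℝ) : Matrix Bool Bool ℂ := fun c b =>
  if c = b then ((Real.cos α : ℝ) : ℂ) else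
    if c then -((Real.sin α : ℝ) : ℂ) else ((Real.sin α : ℝ) : ℂ)

lemma rot_unitary (α : ℝ) : rot α * (rot α)ᴴ = 1 := by
  have h : ((Real.cos α : ℝ) : ℂ) * ((Real.cos α : ℝ) : ℂ) +
      ((Real.sin α : ℝ) : ℂ) * ((Real.sin α : ℝ) : ℂ) = 1 := by
    rw [← Complex.ofReal_mul, ← Complex.ofReal_mul, ← Complex.ofReal_add]
    have := Real.cos_sq_add_sin_sq α
    rw [sq, sq] at this
    rw [this, Complex.ofReal_one]
  have hc : star ((Real.cos α : ℝ) : ℂ) = ((Real.cos α : ℝ) : ℂ) := Complex.conj_ofReal _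
  have hs : star ((Real.sin α : ℝ) : ℂ) = ((Real.sin α : ℝ) : ℂ) := Complex.conj_ofReal _
  have hff : rot α false false = ((Real.cos α : ℝ) : ℂ) := rfl
  have hft : rot α false true = ((Real.sin α : ℝ) : ℂ) := rfl
  have htf : rot α true false = -((Real.sin α : ℝ) : ℂ) := rfl
  have htt : rot α true true = ((Real.cos α : ℝ) : ℂ) := rfl
  ext a b
  rw [Matrix.mul_apply, Fintype.sum_bool]
  simp only [Matrix.conjTranspose_apply]
  cases a <;> cases b
  · rw [hff, hft, hc, hs, Matrix.one_apply_eq]; linear_combination h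
  · rw [hff, hft, htt, htf, star_neg, hc, hs, Matrix.one_apply_ne (by simp)]; ring
  · rw [hff, hft, htt, htf, hc, hs, Matrix.one_apply_ne (by simp)]; ring
  · rw [htt, htf, star_neg, hc, hs, Matrix.one_apply_eq]; linear_combination h

/-- The two blocks. -/
noncomputable def ψ (L : ℕ) : V L × Bool ≃ Fin (2 ^ L) ⊕ Fin (2 ^ L) :=
  (Equiv.prodComm _ _).trans <| (Equiv.boolProdEquivSum _).trans <|
    Equiv.sumCongr (outE L) (inpE L)

lemma ψ_false (L : ℕ) (v : V L) : ψ L (v, false) = Sum.inl (outE L v) := rfl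

lemma ψ_true (L : ℕ) (v : V L) : ψ L (v, true) = Sum.inr (inpE L v) := rfl

lemma rotX_eq (L : ℕ) (α : ℝ) : (rotX (2 ^ L) α).submatrix (ψ L) (ψ L) =
    (onBlock true (W L)ᴴ * onPairs (fun _ : V L => rot α)) * onBlock true (W L) := by
  have hL : ∀ (A : Matrix (V L) (V L) ℂ) (B : Matrix (V L × Bool) (V L × Bool) ℂ)
      (v : V L) (c : Bool) (y : V L × Bool), (onBlock true A * B) (v, c) y =
      if c = true then ∑ u, A v u * B (u, true) y else B (v, false) y := by
    intro A B v c y
    rw [Matrix.mul_apply, Fintype.sum_prod_type]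
    cases c
    · simp only [Bool.false_eq_true, if_false]
      rw [Finset.sum_eq_single v]
      · rw [Finset.sum_eq_single false]
        · simp [onBlock, Matrix.blockDiagonal_apply]
        · intro b _ hb
          simp [onBlock, Matrix.blockDiagonal_apply, Ne.symm hb]
        · intro h; exact absurd (Finset.mem_univ _) h
      · intro u _ hu
        refine Finset.sum_eq_zero fun b _ => ?_
        rw [onBlock, Matrix.blockDiagonal_apply]
        split_ifs with h1 h2
        · subst h1; simp at h2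
        · rw [Matrix.one_apply_ne (Ne.symm hu), zero_mul]
        · rw [zero_mul]
      · intro h; exact absurd (Finset.mem_univ _) h
    · simp only [if_true]
      refine Finset.sum_congr rfl fun u _ => ?_
      rw [Finset.sum_eq_single true]
      · simp [onBlock, Matrix.blockDiagonal_apply]
      · intro b _ hb
        simp [onBlock, Matrix.blockDiagonal_apply, Ne.symm hb]
      · intro h; exact absurd (Finset.mem_univ _) h
  have hP : ∀ (B : Matrix (V L × Bool) (V L × Bool) ℂ) (v : V L) (c : Bool) (y : V L × Bool),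
      (onPairs (fun _ : V L => rot α) * B) (v, c) y =
        rot α c true * B (v, true) y + rot α c false * B (v, false) y := by
    intro B v c y
    rw [Matrix.mul_apply, Fintype.sum_prod_type]
    rw [Finset.sum_eq_single v]
    · rw [Fintype.sum_bool, onPairs_apply, onPairs_apply, if_pos rfl, if_pos rfl]
    · intro u _ hu
      refine Finset.sum_eq_zero fun b _ => ?_
      rw [onPairs_apply, if_neg (Ne.symm hu), zero_mul]
    · intro h; exact absurd (Finset.mem_univ _) h
  have hW : ∀ v w, ∑ u, (W L)ᴴ v u * W L u w = if v = w then 1 else 0 := by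
    intro v w
    have := congrFun (congrFun (W_unitary' L) v) w
    rw [Matrix.mul_apply] at this
    rw [this, Matrix.one_apply]
  rw [Matrix.mul_assoc]
  ext x y
  obtain ⟨v, c⟩ := x
  obtain ⟨w, b⟩ := y
  rw [Matrix.submatrix_apply, hL]
  simp only [hP]
  cases c <;> cases b
  · simp only [Bool.false_eq_true, if_false, ψ_false]
    have h1 : (outE L v = outE L w) ↔ v = w := (outE L).injective.eq_iff
    simp [rotX, rotG, onBlock, Matrix.blockDiagonal_apply, rot, Matrix.one_apply, h1]
  · simp only [Bool.false_eq_true, if_false, ψ_false, ψ_true]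
    simp [rotX, rotG, onBlock, Matrix.blockDiagonal_apply, rot, W]
  · simp only [if_true, ψ_false, ψ_true]
    simp [rotX, rotG, onBlock, Matrix.blockDiagonal_apply, rot, W, Matrix.one_apply]
    ring
  · simp only [if_true, ψ_true]
    have h1 : (inpE L v = inpE L w) ↔ v = w := (inpE L).injective.eq_iff
    have h2 : ∀ u : V L, (W L)ᴴ v u * (rot α true true * onBlock true (W L) (u, true) (w, true) +
        rot α true false * onBlock true (W L) (u, false) (w, true)) =
        ((Real.cos α : ℝ) : ℂ) * ((W L)ᴴ v u * W L u w) := by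
      intro u
      simp [rot, onBlock, Matrix.blockDiagonal_apply]
      ring
    rw [Finset.sum_congr rfl fun u _ => h2 u, ← Finset.mul_sum, hW]
    simp [rotX, rotG, Matrix.one_apply, h1]

/-- Labels of the cube. -/
def lab : ∀ L, V L ≃ (Fin L → Bool)
  | 0 => (Equiv.ofUnique Unit (Fin 0 → Bool) : Unit ≃ (Fin 0 → Bool))
  | L + 1 => ((Equiv.prodComm _ _).trans (Equiv.prodCongr (Equiv.refl Bool) (lab L))).trans
      (Fin.consEquiv fun _ => Bool)

lemma lab_succ (L : ℕ) (v : V L) (c : Bool) :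
    lab (L + 1) (v, c) = Fin.cons c (lab L v) := rfl

lemma edge_lab : ∀ L (x y : V L), Edge L x y → hammingDist (lab L x) (lab L y) = 1
  | 0, _, _, h => h.elim
  | L + 1, x, y, h => by
    obtain ⟨v, c⟩ := x
    obtain ⟨w, b⟩ := y
    rw [lab_succ, lab_succ]
    have hd : hammingDist (Fin.cons c (lab L v) : Fin (L + 1) → Bool) (Fin.cons b (lab L w)) =
        (if c ≠ b then 1 else 0) + hammingDist (lab L v) (lab L w) := by
      unfold hammingDist
      rw [Finset.card_filter, Finset.card_filter, Fin.sum_univ_succ]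
      simp
    rw [hd]
    rcases h with ⟨h1, h2⟩ | ⟨h1, h2⟩
    · have h2' : c = b := h2
      subst h2'
      simp [edge_lab L v w h1]
    · have h1' : v = w := h1
      have h2' : c ≠ b := h2
      subst h1'
      simp [h2']

/-- The labelling of the coordinates: block bit, then the bits of the index (reversed in the
first block). -/
noncomputable def lbl (L : ℕ) : Fin (2 ^ L) ⊕ Fin (2 ^ L) ≃ (Fin (L + 1) → Bool) :=
  (ψ L).symm.trans (lab (L + 1))

lemma lbl_ψ (L : ℕ) (x : V L × Bool) : lbl L (ψ L x) = lab (L + 1) x :=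
  congrArg (lab (L + 1)) (Equiv.symm_apply_apply (ψ L) x)

/-- **Upper bound in the hypercube network.** -/
theorem cube_upper (L : ℕ) (α : ℝ) :
    ∃ l : List ((Fin (2 ^ L) ⊕ Fin (2 ^ L)) × (Fin (2 ^ L) ⊕ Fin (2 ^ L)) ×
      Matrix (Fin (2 ^ L) ⊕ Fin (2 ^ L)) (Fin (2 ^ L) ⊕ Fin (2 ^ L)) ℂ),
    (∀ g ∈ l, IsTwoAt g.2.2 g.1 g.2.1) ∧ (l.map fun g => g.2.2).prod = rotX (2 ^ L) α ∧
    (∀ g ∈ l, hammingDist (lbl L g.1) (lbl L g.2.1) = 1) ∧ l.length = (L + 1) * 2 ^ L := by
  have h1 := hasAlg_W L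
  have h2 : HasAlg (Edge (L + 1)) (cost L) (onBlock true (W L)) :=
    HasAlg.onBlock (E2 := Edge (L + 1)) true (fun i j h => Or.inl ⟨h, rfl⟩) h1
  have h3 : HasAlg (Edge (L + 1)) (cost L) (onBlock true (W L)ᴴ) :=
    HasAlg.onBlock (E2 := Edge (L + 1)) true (fun i j h => Or.inl ⟨h, rfl⟩) h1.conjTranspose
  have h4 : HasAlg (Edge (L + 1)) (Fintype.card (V L)) (onPairs (fun _ => rot α)) :=
    HasAlg.onPairs (E2 := Edge (L + 1)) (fun v => Or.inr ⟨rfl, by simp⟩) _
      (fun _ => rot_unitary α)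
  rw [card_V] at h4
  have h5 : HasAlg (ι := V L × Bool) (Edge (L + 1)) (cost L + 2 ^ L + cost L)
      ((rotX (2 ^ L) α).submatrix (ψ L) (ψ L)) := by
    rw [rotX_eq]
    exact (h3.mul h4).mul h2
  have h6 := HasAlg.reindex (E' := fun a b : Fin (2 ^ L) ⊕ Fin (2 ^ L) =>
    hammingDist (lbl L a) (lbl L b) = 1) (ψ L) (fun i j h => by
      have h8 := edge_lab (L + 1) i j h
      show hammingDist _ _ = 1
      rw [lbl_ψ, lbl_ψ]
      exact h8) h5
  have h7 : ((rotX (2 ^ L) α).submatrix (ψ L) (ψ L)).submatrix (ψ L).symm (ψ L).symm =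
      rotX (2 ^ L) α := by
    rw [Matrix.submatrix_submatrix]
    simp
  rw [h7] at h6
  obtain ⟨l, hl, hp, hlen⟩ := h6
  refine ⟨l, fun g hg => (hl g hg).1, hp, fun g hg => (hl g hg).2, ?_⟩
  rw [hlen]
  have := two_mul_cost L
  nlinarith

end FFT

end RotFourier
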