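import Pool.Agent.Lib.MP_7fb13b_lc.H35.Cut

/-!
# MP_7fb13b_lc : light rows

`lev z x = x |x|^(-z)`.  The functional `Φ(P) = ∑ lev z (P a b) conj ((P G) a b)` changes at a gate
with active rows `i`, `j` by at most `4 z w`, where `w` is the weight of the two active rows.
-/

open Matrix

set_option linter.unusedSectionVars false

namespace RotFourier

namespace Light

/-- `x |x|^(-z)`. -/
noncomputable def lev (z : ℝ) (x : ℂ) : ℂ := ((‖x‖ ^ (-z) : ℝ) : ℂ) * x

@[simp] lemma lev_zero (z : ℝ) : lev z 0 = 0 := by simp [lev]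

lemma norm_lev_sub_le {z : ℝ} (h0 : 0 ≤ z) (h1 : z ≤ 1) {ρ : ℝ} (hρ : 0 < ρ) {y : ℂ}
    (hy : ‖y‖ ≤ ρ) : ‖lev z y - ((ρ ^ (-z) : ℝ) : ℂ) * y‖ ≤ z * ρ ^ (1 - z) := by
  by_cases hy0 : y = 0
  · subst hy0
    simp
    positivity
  have hyp : 0 < ‖y‖ := norm_pos_iff.2 hy0
  have e1 : lev z y - ((ρ ^ (-z) : ℝ) : ℂ) * y = ((‖y‖ ^ (-z) - ρ ^ (-z) : ℝ) : ℂ) * y := by
    rw [lev]; push_cast; ring
  have hle : ρ ^ (-z) ≤ ‖y‖ ^ (-z) := by
    rw [Real.rpow_neg hρ.le, Real.rpow_neg hyp.le]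
    exact inv_anti₀ (Real.rpow_pos_of_pos hyp z) (Real.rpow_le_rpow hyp.le hy h0)
  rw [e1, norm_mul, Complex.norm_real, Real.norm_eq_abs, abs_of_nonneg (by linarith)]
  set s := ‖y‖ / ρ with hs
  have hs0 : 0 < s := by positivity
  have hs1 : s ≤ 1 := (div_le_one hρ).2 hy
  have hys : ‖y‖ = s * ρ := by rw [hs]; field_simp
  have e2 : ‖y‖ ^ (-z) * ‖y‖ = s ^ (1 - z) * ρ ^ (1 - z) := by
    rw [← Real.rpow_add_one hyp.ne', ← Real.mul_rpow hs0.le hρ.le, ← hys]
    congr 1; ring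
  have e3 : ρ ^ (-z) * ‖y‖ = s * ρ ^ (1 - z) := by
    rw [hys]
    have : ρ ^ (1 - z) = ρ ^ (-z) * ρ := by
      rw [← Real.rpow_add_one hρ.ne']; congr 1; ring
    rw [this]; ring
  have e4 : s ^ (1 - z) ≤ (1 - z) * s + z := by
    have := Real.geom_mean_le_arith_mean2_weighted (w₁ := 1 - z) (w₂ := z) (p₁ := s) (p₂ := 1)
      (by linarith) h0 hs0.le zero_le_one (by ring)
    simpa using this
  rw [sub_mul, e2, e3, ← sub_mul]
  refine mul_le_mul_of_nonneg_right ?_ (by positivity)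
  nlinarith

variable {ι : Type*} [Fintype ι] [DecidableEq ι]

/-- The contribution of the rows `i`, `j` in column `b`. -/
noncomputable def col (z : ℝ) (P Q : Matrix ι ι ℂ) (i j b : ι) : ℂ :=
  lev z (P i b) * star (Q i b) + lev z (P j b) * star (Q j b)

lemma pair_inner {R : Matrix ι ι ℂ} {i j : ι} (h : IsTwo R i j) (P Q : Matrix ι ι ℂ) (b : ι) :
    (R * P) i b * star ((R * Q) i b) + (R * P) j b * star ((R * Q) j b) =
      P i b * star (Q i b) + P j b * star (Q j b) := by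
  have hcol : ∀ A B : Matrix ι ι ℂ, ∑ a, A a b * star (B a b) = (Bᴴ * A) b b := by
    intro A B
    rw [Matrix.mul_apply]
    exact Finset.sum_congr rfl fun a _ => by rw [Matrix.conjTranspose_apply, mul_comm]
  have h1 : ∑ a, (R * P) a b * star ((R * Q) a b) = ∑ a, P a b * star (Q a b) := by
    rw [hcol, hcol, Matrix.conjTranspose_mul, Matrix.mul_assoc, ← Matrix.mul_assoc Rᴴ R P]
    have : Rᴴ * R = 1 := Matrix.mem_unitaryGroup_iff'.1 h.unit
    rw [this, Matrix.one_mul]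
  have h2 : ∀ A B : Matrix ι ι ℂ, ∑ a, A a b * star (B a b) =
      (A i b * star (B i b) + A j b * star (B j b)) +
        ∑ a ∈ (Finset.univ \ {i, j} : Finset ι), A a b * star (B a b) := by
    intro A B
    rw [← Finset.sum_sdiff (Finset.subset_univ ({i, j} : Finset ι)), Finset.sum_pair h.ne,
      add_comm]
  rw [h2, h2] at h1
  have h3 : ∑ a ∈ (Finset.univ \ {i, j} : Finset ι), (R * P) a b * star ((R * Q) a b) =
      ∑ a ∈ (Finset.univ \ {i, j} : Finset ι), P a b * star (Q a b) := by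
    refine Finset.sum_congr rfl fun a ha => ?_
    simp only [Finset.mem_sdiff, Finset.mem_univ, true_and, Finset.mem_insert,
      Finset.mem_singleton, not_or] at ha
    rw [h.mul_apply_of_ne P ha.1 ha.2, h.mul_apply_of_ne Q ha.1 ha.2]
  rw [h3] at h1
  exact add_right_cancel h1

lemma norm_col_sub_le {z : ℝ} (h0 : 0 ≤ z) (h1 : z ≤ 1) (P Q : Matrix ι ι ℂ) (i j b : ι)
    (hρ : 0 < pairSq P i j b) :
    ‖col z P Q i j b - ((Real.sqrt (pairSq P i j b) ^ (-z) : ℝ) : ℂ) *
      (P i b * star (Q i b) + P j b * star (Q j b))‖ ≤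
      Real.sqrt 2 * z * Real.sqrt (pairSq P i j b) ^ (1 - z) * Real.sqrt (pairSq Q i j b) := by
  set ρ := Real.sqrt (pairSq P i j b) with hρd
  have hρ' : 0 < ρ := Real.sqrt_pos.2 hρ
  have hρ2 : ρ ^ 2 = pairSq P i j b := Real.sq_sqrt hρ.le
  have hi : ‖P i b‖ ≤ ρ := by
    apply Real.le_sqrt_of_sq_le
    unfold pairSq
    nlinarith [sq_nonneg ‖P j b‖]
  have hj : ‖P j b‖ ≤ ρ := by
    apply Real.le_sqrt_of_sq_le
    unfold pairSq
    nlinarith [sq_nonneg ‖P i b‖]
  have e1 : col z P Q i j b - ((ρ ^ (-z) : ℝ) : ℂ) *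
      (P i b * star (Q i b) + P j b * star (Q j b)) =
      (lev z (P i b) - ((ρ ^ (-z) : ℝ) : ℂ) * P i b) * star (Q i b) +
        (lev z (P j b) - ((ρ ^ (-z) : ℝ) : ℂ) * P j b) * star (Q j b) := by
    unfold col; ring
  rw [e1]
  have hQ : ‖Q i b‖ + ‖Q j b‖ ≤ Real.sqrt 2 * Real.sqrt (pairSq Q i j b) := by
    rw [← Real.sqrt_mul (by norm_num)]
    apply Real.le_sqrt_of_sq_le
    unfold pairSq
    nlinarith [sq_nonneg (‖Q i b‖ - ‖Q j b‖)]
  calc _ ≤ ‖(lev z (P i b) - ((ρ ^ (-z) : ℝ) : ℂ) * P i b) * star (Q i b)‖ +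
        ‖(lev z (P j b) - ((ρ ^ (-z) : ℝ) : ℂ) * P j b) * star (Q j b)‖ := norm_add_le _ _
    _ ≤ z * ρ ^ (1 - z) * ‖Q i b‖ + z * ρ ^ (1 - z) * ‖Q j b‖ := by
        rw [norm_mul, norm_mul, norm_star, norm_star]
        gcongr
        · exact norm_lev_sub_le h0 h1 hρ' hi
        · exact norm_lev_sub_le h0 h1 hρ' hj
    _ = z * ρ ^ (1 - z) * (‖Q i b‖ + ‖Q j b‖) := by ring
    _ ≤ z * ρ ^ (1 - z) * (Real.sqrt 2 * Real.sqrt (pairSq Q i j b)) := by gcongr
    _ = _ := by ring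

/-- One column of one gate. -/
lemma norm_col_step {z : ℝ} (h0 : 0 ≤ z) (h1 : z ≤ 1) {R : Matrix ι ι ℂ} {i j : ι}
    (h : IsTwo R i j) (P Q : Matrix ι ι ℂ) (b : ι) :
    ‖col z (R * P) (R * Q) i j b - col z P Q i j b‖ ≤
      2 * Real.sqrt 2 * z * Real.sqrt (pairSq P i j b) ^ (1 - z) *
        Real.sqrt (pairSq Q i j b) := by
  by_cases hρ : 0 < pairSq P i j b
  · have hρ' : 0 < pairSq (R * P) i j b := by rw [h.pairSq_mul]; exact hρ
    have e1 := norm_col_sub_le h0 h1 P Q i j b hρ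
    have e2 := norm_col_sub_le h0 h1 (R * P) (R * Q) i j b hρ'
    rw [pair_inner h, h.pairSq_mul, h.pairSq_mul] at e2
    calc _ = ‖(col z (R * P) (R * Q) i j b - ((Real.sqrt (pairSq P i j b) ^ (-z) : ℝ) : ℂ) *
          (P i b * star (Q i b) + P j b * star (Q j b))) -
          (col z P Q i j b - ((Real.sqrt (pairSq P i j b) ^ (-z) : ℝ) : ℂ) *
          (P i b * star (Q i b) + P j b * star (Q j b)))‖ := by congr 1; ring
      _ ≤ _ := (norm_sub_le _ _).trans (add_le_add e2 e1)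
      _ = _ := by ring
  · have hz : pairSq P i j b = 0 := le_antisymm (not_lt.1 hρ) (pairSq_nonneg _ _ _ _)
    have hz' : pairSq (R * P) i j b = 0 := by rw [h.pairSq_mul]; exact hz
    have key : ∀ A : Matrix ι ι ℂ, pairSq A i j b = 0 → A i b = 0 ∧ A j b = 0 := by
      intro A hA
      unfold pairSq at hA
      have h1 : ‖A i b‖ ^ 2 = 0 := by nlinarith [sq_nonneg ‖A i b‖, sq_nonneg ‖A j b‖]
      have h2 : ‖A j b‖ ^ 2 = 0 := by nlinarith [sq_nonneg ‖A i b‖, sq_nonneg ‖A j b‖]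
      exact ⟨norm_eq_zero.1 (pow_eq_zero_iff (two_ne_zero) |>.1 h1),
        norm_eq_zero.1 (pow_eq_zero_iff (two_ne_zero) |>.1 h2)⟩
    have k1 := key P hz
    have k2 := key (R * P) hz'
    have : col z (R * P) (R * Q) i j b - col z P Q i j b = 0 := by
      unfold col
      rw [k1.1, k1.2, k2.1, k2.2]
      simp
    rw [this, norm_zero]
    positivity

/-- The weight of the rows `i` and `j`. -/
noncomputable def weight (z : ℝ) (P : Matrix ι ι ℂ) (i j : ι) : ℝ :=
  Real.sqrt (∑ b, (‖P i b‖ ^ (2 - 2 * z) + ‖P j b‖ ^ (2 - 2 * z)))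

/-- The functional. -/
noncomputable def Phi (z : ℝ) (G P : Matrix ι ι ℂ) : ℂ :=
  ∑ b, ∑ a, lev z (P a b) * star ((P * G) a b)

lemma Phi_step {z : ℝ} (h0 : 0 ≤ z) (h1 : z ≤ 1) {R G P : Matrix ι ι ℂ} {i j : ι}
    (h : IsTwo R i j) (hG : G ∈ Matrix.unitaryGroup ι ℂ) (hP : P ∈ Matrix.unitaryGroup ι ℂ) :
    ‖Phi z G (R * P) - Phi z G P‖ ≤ 4 * z * weight z P i j := by
  have hcolsum : ∀ b, (∑ a, lev z ((R * P) a b) * star ((R * P * G) a b)) -
      (∑ a, lev z (P a b) * star ((P * G) a b)) =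
      col z (R * P) (R * (P * G)) i j b - col z P (P * G) i j b := by
    intro b
    have h2 : ∀ f : ι → ℂ, ∑ a, f a = (f i + f j) +
        ∑ a ∈ (Finset.univ \ {i, j} : Finset ι), f a := by
      intro f
      rw [← Finset.sum_sdiff (Finset.subset_univ ({i, j} : Finset ι)), Finset.sum_pair h.ne,
        add_comm]
    rw [h2, h2 (fun a => lev z (P a b) * star ((P * G) a b)), Matrix.mul_assoc]
    have h3 : ∑ a ∈ (Finset.univ \ {i, j} : Finset ι),
        lev z ((R * P) a b) * star ((R * (P * G)) a b) =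
        ∑ a ∈ (Finset.univ \ {i, j} : Finset ι), lev z (P a b) * star ((P * G) a b) := by
      refine Finset.sum_congr rfl fun a ha => ?_
      simp only [Finset.mem_sdiff, Finset.mem_univ, true_and, Finset.mem_insert,
        Finset.mem_singleton, not_or] at ha
      rw [h.mul_apply_of_ne P ha.1 ha.2, h.mul_apply_of_ne (P * G) ha.1 ha.2]
    rw [h3]
    unfold col
    ring
  have e1 : Phi z G (R * P) - Phi z G P =
      ∑ b, (col z (R * P) (R * (P * G)) i j b - col z P (P * G) i j b) := by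
    unfold Phi
    rw [← Finset.sum_sub_distrib]
    exact Finset.sum_congr rfl fun b _ => hcolsum b
  rw [e1]
  have hPG : P * G ∈ Matrix.unitaryGroup ι ℂ := mul_mem hP hG
  have hsumQ : ∑ b, pairSq (P * G) i j b = 2 := by
    rw [sum_pairSq, rowSq_unitary hPG, rowSq_unitary hPG]; norm_num
  have hle : ∀ b, (pairSq P i j b) ^ (1 - z) ≤
      ‖P i b‖ ^ (2 - 2 * z) + ‖P j b‖ ^ (2 - 2 * z) := by
    intro b
    have e : ∀ t : ℝ, 0 ≤ t → (t ^ 2) ^ (1 - z) = t ^ (2 - 2 * z) := by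
      intro t ht
      rw [← Real.rpow_natCast, ← Real.rpow_mul ht]
      congr 1; push_cast; ring
    unfold pairSq
    rw [← e _ (norm_nonneg _), ← e _ (norm_nonneg _)]
    exact Real.rpow_add_le_add_rpow (by positivity) (by positivity) (by linarith) (by linarith)
  calc ‖∑ b, (col z (R * P) (R * (P * G)) i j b - col z P (P * G) i j b)‖
      ≤ ∑ b, ‖col z (R * P) (R * (P * G)) i j b - col z P (P * G) i j b‖ := norm_sum_le _ _
    _ ≤ ∑ b, 2 * Real.sqrt 2 * z * Real.sqrt (pairSq P i j b) ^ (1 - z) *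
        Real.sqrt (pairSq (P * G) i j b) :=
        Finset.sum_le_sum fun b _ => norm_col_step h0 h1 h P (P * G) b
    _ = 2 * Real.sqrt 2 * z * ∑ b, Real.sqrt ((pairSq P i j b) ^ (1 - z)) *
        Real.sqrt (pairSq (P * G) i j b) := by
        rw [Finset.mul_sum]
        refine Finset.sum_congr rfl fun b _ => ?_
        have e : Real.sqrt (pairSq P i j b) ^ (1 - z) =
            Real.sqrt ((pairSq P i j b) ^ (1 - z)) := by
          rw [Real.sqrt_eq_rpow (pairSq P i j b), Real.sqrt_eq_rpow ((pairSq P i j b) ^ (1 - z)),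
            ← Real.rpow_mul (pairSq_nonneg _ _ _ _), ← Real.rpow_mul (pairSq_nonneg _ _ _ _),
            mul_comm (1 / 2 : ℝ) (1 - z)]
        rw [e]
        ring
    _ ≤ 2 * Real.sqrt 2 * z * (Real.sqrt (∑ b, (pairSq P i j b) ^ (1 - z)) *
        Real.sqrt (∑ b, pairSq (P * G) i j b)) := by
        gcongr
        exact Real.sum_sqrt_mul_sqrt_le _ (fun b => Real.rpow_nonneg (pairSq_nonneg _ _ _ _) _)
          (fun b => pairSq_nonneg _ _ _ _)
    _ ≤ 2 * Real.sqrt 2 * z * (weight z P i j * Real.sqrt 2) := by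
        rw [hsumQ]
        gcongr
        exact Real.sqrt_le_sqrt (Finset.sum_le_sum fun b _ => hle b)
    _ = 4 * z * weight z P i j := by
        have : Real.sqrt 2 * Real.sqrt 2 = 2 := Real.mul_self_sqrt (by norm_num)
        calc _ = 2 * (Real.sqrt 2 * Real.sqrt 2) * z * weight z P i j := by ring
          _ = _ := by rw [this]; ring

/-- The weights of all gates of an algorithm (`g :: l` : the gate `g` comes after `l`). -/
noncomputable def totalWeight (z : ℝ) : List (ι × ι × Matrix ι ι ℂ) → ℝ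
  | [] => 0
  | g :: l => weight z (l.map fun g => g.2.2).prod g.1 g.2.1 + totalWeight z l

lemma isTwo_of_isTwoAt {R : Matrix ι ι ℂ} {i j : ι} (h : IsTwoAt R i j) : IsTwo R i j := by
  obtain ⟨hij, hu, h⟩ := h
  refine ⟨hij, hu, fun a hi hj b => h a b ?_, fun b hi hj a => h a b ?_⟩
  · rintro ⟨h1 | h1, _⟩
    · exact hi h1
    · exact hj h1
  · rintro ⟨_, h1 | h1⟩
    · exact hi h1
    · exact hj h1

lemma prod_mem (l : List (ι × ι × Matrix ι ι ℂ)) (hl : ∀ g ∈ l, IsTwoAt g.2.2 g.1 g.2.1) :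
    (l.map fun g => g.2.2).prod ∈ Matrix.unitaryGroup ι ℂ := by
  induction l with
  | nil => exact one_mem _
  | cons g l ih =>
    rw [List.map_cons, List.prod_cons]
    exact mul_mem (hl g List.mem_cons_self).2.1 (ih fun g' hg' => hl g' (List.mem_cons_of_mem _ hg'))

lemma Phi_one {z : ℝ} {G : Matrix ι ι ℂ} (hG : ∀ a, G a a = 0) : Phi z G 1 = 0 := by
  unfold Phi
  refine Finset.sum_eq_zero fun b _ => Finset.sum_eq_zero fun a _ => ?_
  rw [Matrix.one_mul]
  by_cases h : a = b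
  · subst h; rw [hG]; simp
  · rw [Matrix.one_apply_ne h]; simp

theorem Phi_le {z : ℝ} (h0 : 0 ≤ z) (h1 : z ≤ 1) {G : Matrix ι ι ℂ}
    (hG : G ∈ Matrix.unitaryGroup ι ℂ) (hG0 : ∀ a, G a a = 0)
    (l : List (ι × ι × Matrix ι ι ℂ)) (hl : ∀ g ∈ l, IsTwoAt g.2.2 g.1 g.2.1) :
    ‖Phi z G (l.map fun g => g.2.2).prod‖ ≤ 4 * z * totalWeight z l := by
  induction l with
  | nil => simp [Phi_one hG0, totalWeight]
  | cons g l ih =>
    have ih' := ih fun g' hg' => hl g' (List.mem_cons_of_mem _ hg')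
    have hg := hl g List.mem_cons_self
    rw [List.map_cons, List.prod_cons, totalWeight]
    have h2 := Phi_step h0 h1 (isTwo_of_isTwoAt hg) hG
      (prod_mem l fun g' hg' => hl g' (List.mem_cons_of_mem _ hg'))
    calc _ = ‖(Phi z G (g.2.2 * (l.map fun g : ι × ι × Matrix ι ι ℂ => g.2.2).prod) -
          Phi z G (l.map fun g : ι × ι × Matrix ι ι ℂ => g.2.2).prod) +
          Phi z G (l.map fun g : ι × ι × Matrix ι ι ℂ => g.2.2).prod‖ := by rw [sub_add_cancel]
      _ ≤ _ := (norm_add_le _ _).trans (add_le_add h2 ih')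
      _ = _ := by ring

/-- The exponent `z` for `X_α`, `s = sin α`: `(√n / s)^z = 1 / s`. -/
noncomputable def zOf (n : ℕ) (s : ℝ) : ℝ := Real.log (1 / s) / Real.log (Real.sqrt n / s)

section endpoint

variable {n : ℕ} {α : ℝ}

lemma rotX_mul_rotG (hn : 0 < n) : rotX n α * rotG n =
    ((Real.cos α : ℝ) : ℂ) • rotG n - ((Real.sin α : ℝ) : ℂ) • 1 := by
  rw [rotX, Matrix.add_mul, Matrix.smul_mul, Matrix.smul_mul, Matrix.one_mul, rotG_mul_self hn,
    smul_neg, sub_eq_add_neg]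

/-- The value of the functional at `X_α`. -/
lemma Phi_rotX (hn : 0 < n) {z : ℝ} (hc : 0 < Real.cos α) (hs : 0 < Real.sin α) :
    Phi z (rotG n) (rotX n α) = ((2 * n * (Real.cos α * (Real.sin α *
      (Real.sin α / Real.sqrt n) ^ (-z)) - Real.sin α * Real.cos α ^ (1 - z)) : ℝ) : ℂ) := by
  have hn' : (0 : ℝ) < n := by exact_mod_cast hn
  set c := Real.cos α with hcd
  set s := Real.sin α with hsd
  have hsq : 0 < Real.sqrt n := Real.sqrt_pos.2 hn'
  have hXG : ∀ a b, (rotX n α * rotG n) a b = (c : ℂ) * rotG n a b -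
      (s : ℂ) * (1 : Matrix (Fin n ⊕ Fin n) (Fin n ⊕ Fin n) ℂ) a b := by
    intro a b
    rw [rotX_mul_rotG hn]
    simp [hcd, hsd]
  have hX : ∀ a b, rotX n α a b = (c : ℂ) * (1 : Matrix (Fin n ⊕ Fin n) (Fin n ⊕ Fin n) ℂ) a b +
      (s : ℂ) * rotG n a b := by
    intro a b
    simp [rotX, hcd, hsd]
  -- the terms
  have hdiag : ∀ a, lev z (rotX n α a a) * star ((rotX n α * rotG n) a a) =
      ((-(s * c ^ (1 - z)) : ℝ) : ℂ) := by
    intro a
    rw [hXG, hX, rotG_diag, Matrix.one_apply_eq, mul_zero, mul_one, mul_one, mul_zero, add_zero,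
      zero_sub, lev, Complex.norm_real, Real.norm_eq_abs, abs_of_pos hc, star_neg,
      Complex.star_def, Complex.conj_ofReal]
    have : c ^ (1 - z) = c ^ (-z) * c := by
      rw [← Real.rpow_add_one hc.ne']; congr 1; ring
    rw [this]
    push_cast
    ring
  have hsame : ∀ a b, a ≠ b → rotG n a b = 0 →
      lev z (rotX n α a b) * star ((rotX n α * rotG n) a b) = 0 := by
    intro a b hab h0
    rw [hX, h0, Matrix.one_apply_ne hab]
    simp
  have hopp : ∀ a b, a ≠ b → ‖rotG n a b‖ ^ 2 = 1 / n →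
      lev z (rotX n α a b) * star ((rotX n α * rotG n) a b) =
        ((c * (s * (s / Real.sqrt n) ^ (-z)) / n : ℝ) : ℂ) := by
    intro a b hab h1
    have hnorm : ‖rotG n a b‖ = 1 / Real.sqrt n := by
      have : ‖rotG n a b‖ = Real.sqrt (1 / n) := by
        rw [← h1, Real.sqrt_sq (norm_nonneg _)]
      rw [this, Real.sqrt_div zero_le_one, Real.sqrt_one]
    rw [hXG, hX, Matrix.one_apply_ne hab, mul_zero, zero_add, mul_zero, sub_zero, lev, norm_mul,
      Complex.norm_real, Real.norm_eq_abs, abs_of_pos hs, hnorm, star_mul', Complex.star_def,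
      Complex.conj_ofReal]
    have e1 : rotG n a b * (starRingEnd ℂ) (rotG n a b) = ((1 / n : ℝ) : ℂ) := by
      rw [Complex.mul_conj, Complex.normSq_eq_norm_sq, h1]
    have e2 : s * (1 / Real.sqrt n) = s / Real.sqrt n := by ring
    rw [e2]
    calc _ = (((s / Real.sqrt n) ^ (-z) : ℝ) : ℂ) * s * c *
          (rotG n a b * (starRingEnd ℂ) (rotG n a b)) := by ring
      _ = _ := by rw [e1]; push_cast; ring
  -- sum
  have g12 : ∀ k m : Fin n, ‖rotG n (Sum.inl k) (Sum.inr m)‖ ^ 2 = 1 / n := fun k m => by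
    simp only [rotG, Matrix.fromBlocks_apply₁₂]
    exact dft_norm_sq hn k m
  have g21 : ∀ k m : Fin n, ‖rotG n (Sum.inr m) (Sum.inl k)‖ ^ 2 = 1 / n := fun k m => by
    simp only [rotG, Matrix.fromBlocks_apply₂₁, Matrix.neg_apply, Matrix.conjTranspose_apply,
      norm_neg, norm_star]
    exact dft_norm_sq hn k m
  have hsum : ∀ b, ∑ a, lev z (rotX n α a b) * star ((rotX n α * rotG n) a b) =
      ((c * (s * (s / Real.sqrt n) ^ (-z)) - s * c ^ (1 - z) : ℝ) : ℂ) := by
    intro b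
    rw [Fintype.sum_sum_type]
    rcases b with b | b
    · have e1 : ∑ a : Fin n, lev z (rotX n α (Sum.inl a) (Sum.inl b)) *
          star ((rotX n α * rotG n) (Sum.inl a) (Sum.inl b)) = ((-(s * c ^ (1 - z)) : ℝ) : ℂ) := by
        rw [Finset.sum_eq_single b]
        · exact hdiag _
        · intro a _ hab
          exact hsame _ _ (fun h => hab (Sum.inl.inj h)) (by simp [rotG])
        · intro h; exact absurd (Finset.mem_univ _) h
      have e2 : ∑ a : Fin n, lev z (rotX n α (Sum.inr a) (Sum.inl b)) *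
          star ((rotX n α * rotG n) (Sum.inr a) (Sum.inl b)) =
          n * ((c * (s * (s / Real.sqrt n) ^ (-z)) / n : ℝ) : ℂ) := by
        rw [Finset.sum_congr rfl fun a _ => hopp _ _ (by simp) (g21 b a)]
        simp
      rw [e1, e2]
      have hnc : (n : ℂ) ≠ 0 := by exact_mod_cast hn.ne'
      push_cast
      field_simp
      ring
    · have e1 : ∑ a : Fin n, lev z (rotX n α (Sum.inr a) (Sum.inr b)) *
          star ((rotX n α * rotG n) (Sum.inr a) (Sum.inr b)) = ((-(s * c ^ (1 - z)) : ℝ) : ℂ) := by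
        rw [Finset.sum_eq_single b]
        · exact hdiag _
        · intro a _ hab
          exact hsame _ _ (fun h => hab (Sum.inr.inj h)) (by simp [rotG])
        · intro h; exact absurd (Finset.mem_univ _) h
      have e2 : ∑ a : Fin n, lev z (rotX n α (Sum.inl a) (Sum.inr b)) *
          star ((rotX n α * rotG n) (Sum.inl a) (Sum.inr b)) =
          n * ((c * (s * (s / Real.sqrt n) ^ (-z)) / n : ℝ) : ℂ) := by
        rw [Finset.sum_congr rfl fun a _ => hopp _ _ (by simp) (g12 a b)]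
        simp
      rw [e1, e2]
      have hnc : (n : ℂ) ≠ 0 := by exact_mod_cast hn.ne'
      push_cast
      field_simp
      ring
  unfold Phi
  rw [Finset.sum_congr rfl fun b _ => hsum b, Finset.sum_const, Finset.card_univ,
    Fintype.card_sum, Fintype.card_fin, nsmul_eq_mul]
  push_cast
  ring

end endpoint

end Light

end RotFourier
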