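import Pool.Agent.Lib.MP_7fb13b_lc.H35.Light
import Pool.Agent.Lib.MP_7fb13b_lc.H9.Circuit

/-!
# MP_7fb13b_lc : light rows, main theorems
-/

open Matrix

set_option linter.unusedSectionVars false

namespace RotFourier

namespace Light

section zz

variable {n : ℕ} {s : ℝ}

lemma log_inv_pos (h0 : 0 < s) (h1 : s < 1) : 0 < Real.log (1 / s) := by
  apply Real.log_pos
  rw [one_div]
  exact (one_lt_inv₀ h0).2 h1

lemma log_frac (hn : 1 ≤ n) (h0 : 0 < s) :
    Real.log (Real.sqrt n / s) = Real.log n / 2 + Real.log (1 / s) := by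
  have hn' : (0 : ℝ) < n := by exact_mod_cast hn
  rw [Real.log_div (Real.sqrt_pos.2 hn').ne' h0.ne', Real.log_sqrt hn'.le, one_div, Real.log_inv]
  ring

lemma log_nat_nonneg (hn : 1 ≤ n) : 0 ≤ Real.log n := Real.log_nonneg (by exact_mod_cast hn)

lemma zOf_pos (hn : 1 ≤ n) (h0 : 0 < s) (h1 : s < 1) : 0 < zOf n s := by
  have h2 := log_inv_pos h0 h1
  have h3 := log_nat_nonneg hn
  rw [zOf, log_frac hn h0]
  positivity

lemma zOf_le_one (hn : 1 ≤ n) (h0 : 0 < s) (h1 : s < 1) : zOf n s ≤ 1 := by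
  have h2 := log_inv_pos h0 h1
  have h3 := log_nat_nonneg hn
  rw [zOf, log_frac hn h0, div_le_one (by positivity)]
  linarith

/-- `z log n ≤ 2 log (1/s)`. -/
lemma zOf_mul_log_le (hn : 1 ≤ n) (h0 : 0 < s) (h1 : s < 1) :
    zOf n s * Real.log n ≤ 2 * Real.log (1 / s) := by
  have h2 := log_inv_pos h0 h1
  have h3 := log_nat_nonneg hn
  rw [zOf, log_frac hn h0, div_mul_eq_mul_div, div_le_iff₀ (by positivity)]
  nlinarith

lemma frac_rpow (hn : 1 ≤ n) (h0 : 0 < s) (h1 : s < 1) :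
    (Real.sqrt n / s) ^ (zOf n s) = 1 / s := by
  have hn' : (0 : ℝ) < n := by exact_mod_cast hn
  have h2 := log_inv_pos h0 h1
  have h3 := log_nat_nonneg hn
  have hpos : 0 < Real.sqrt n / s := div_pos (Real.sqrt_pos.2 hn') h0
  rw [Real.rpow_def_of_pos hpos]
  have : Real.log (Real.sqrt n / s) * zOf n s = Real.log (1 / s) := by
    rw [zOf, mul_div_assoc', mul_comm, mul_div_assoc, div_self, mul_one]
    rw [log_frac hn h0]
    positivity
  rw [this, Real.exp_log (by positivity)]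

lemma level_one (hn : 1 ≤ n) (h0 : 0 < s) (h1 : s < 1) :
    s * (s / Real.sqrt n) ^ (-(zOf n s)) = 1 := by
  have hn' : (0 : ℝ) < n := by exact_mod_cast hn
  have hsq := Real.sqrt_pos.2 hn'
  have : (s / Real.sqrt n) ^ (-(zOf n s)) = (Real.sqrt n / s) ^ (zOf n s) := by
    rw [Real.rpow_neg (by positivity), ← Real.inv_rpow (by positivity), inv_div]
  rw [this, frac_rpow hn h0 h1]
  field_simp

end zz

lemma sin_facts {α : ℝ} (h0 : 0 < α) (h1 : α ≤ 1 / 4) :
    0 < Real.sin α ∧ Real.sin α < 1 ∧ α / 2 ≤ Real.sin α ∧ 0 < Real.cos α ∧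
      1 / 2 ≤ Real.cos α - Real.sin α ∧
      Real.log (1 / Real.sin α) ≤ 3 / 2 * Real.log (1 / α) ∧ 0 < Real.log (1 / α) := by
  have hs1 : Real.sin α ≤ α := Real.sin_le h0.le
  have hs2 : α / 2 ≤ Real.sin α := by
    have := Real.sin_gt_sub_cube h0
    nlinarith [mul_pos h0 h0, mul_pos (mul_pos h0 h0) h0]
  have hc1 : 1 - α ^ 2 / 2 ≤ Real.cos α := Real.one_sub_sq_div_two_le_cos
  have hs0 : 0 < Real.sin α := by linarith
  refine ⟨hs0, by linarith, hs2, by nlinarith, by nlinarith, ?_, ?_⟩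
  · have e1 : Real.log (1 / Real.sin α) ≤ Real.log (2 / α) := by
      apply Real.log_le_log (by positivity)
      rw [div_le_div_iff₀ hs0 h0]
      linarith
    have e2 : Real.log (2 / α) = Real.log 2 + Real.log (1 / α) := by
      rw [← Real.log_mul (by norm_num) (by positivity)]
      congr 1; ring
    have e3 : 2 * Real.log 2 ≤ Real.log (1 / α) := by
      have : 2 * Real.log 2 = Real.log 4 := by
        rw [show (4 : ℝ) = 2 ^ 2 by norm_num, Real.log_pow]; push_cast; ring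
      rw [this]
      apply Real.log_le_log (by norm_num)
      rw [le_div_iff₀ h0]
      linarith
    linarith
  · apply Real.log_pos
    rw [one_div]
    exact (one_lt_inv₀ h0).2 (by linarith)

/-- **The weighted bound**, first form. -/
theorem weighted {n : ℕ} (hn : 1 ≤ n) {α : ℝ} (h0 : 0 < α) (h1 : α ≤ 1 / 4)
    (l : List ((Fin n ⊕ Fin n) × (Fin n ⊕ Fin n) × Matrix (Fin n ⊕ Fin n) (Fin n ⊕ Fin n) ℂ))
    (hl : ∀ g ∈ l, IsTwoAt g.2.2 g.1 g.2.1) (hp : (l.map fun g => g.2.2).prod = rotX n α) :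
    (n : ℝ) ≤ 4 * zOf n (Real.sin α) * totalWeight (zOf n (Real.sin α)) l := by
  obtain ⟨hs0, hs1, hs2, hc0, hcs, -, -⟩ := sin_facts h0 h1
  have hn0 : 0 < n := hn
  have hz0 := zOf_pos hn hs0 hs1
  have hz1 := zOf_le_one hn hs0 hs1
  have key := Phi_le hz0.le hz1 (Cut.rotG_mem n hn0) (rotG_diag n) l hl
  rw [hp, Phi_rotX hn0 hc0 hs0, Complex.norm_real, level_one hn hs0 hs1] at key
  refine le_trans ?_ ((Real.le_norm_self _).trans key)
  have hc : Real.cos α ^ (1 - zOf n (Real.sin α)) ≤ 1 :=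
    Real.rpow_le_one hc0.le (Real.cos_le_one α) (by linarith)
  have hn' : (0 : ℝ) < n := by exact_mod_cast hn
  nlinarith [mul_le_mul_of_nonneg_left hc hs0.le]

/-- **The weighted bound.** -/
theorem weighted' {n : ℕ} (hn : 1 ≤ n) {α : ℝ} (h0 : 0 < α) (h1 : α ≤ 1 / 4)
    (l : List ((Fin n ⊕ Fin n) × (Fin n ⊕ Fin n) × Matrix (Fin n ⊕ Fin n) (Fin n ⊕ Fin n) ℂ))
    (hl : ∀ g ∈ l, IsTwoAt g.2.2 g.1 g.2.1) (hp : (l.map fun g => g.2.2).prod = rotX n α) :
    n * Real.log n / (12 * Real.log (1 / α)) ≤ totalWeight (zOf n (Real.sin α)) l := by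
  obtain ⟨hs0, hs1, hs2, hc0, hcs, hlog, hlp⟩ := sin_facts h0 h1
  have key := weighted hn h0 h1 l hl hp
  set z := zOf n (Real.sin α) with hz
  have hz0 : 0 < z := zOf_pos hn hs0 hs1
  have hzl : z * Real.log n ≤ 2 * Real.log (1 / Real.sin α) := zOf_mul_log_le hn hs0 hs1
  have hn' : (0 : ℝ) < n := by exact_mod_cast hn
  have hW : 0 ≤ totalWeight z l := by nlinarith
  rw [div_le_iff₀ (by positivity)]
  have h3 := log_nat_nonneg hn
  calc (n : ℝ) * Real.log n ≤ (4 * z * totalWeight z l) * Real.log n :=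
        mul_le_mul_of_nonneg_right key h3
    _ = 4 * totalWeight z l * (z * Real.log n) := by ring
    _ ≤ 4 * totalWeight z l * (2 * Real.log (1 / Real.sin α)) := by gcongr
    _ ≤ 4 * totalWeight z l * (2 * (3 / 2 * Real.log (1 / α))) := by gcongr
    _ = _ := by ring

section rows

variable {ι : Type*} [Fintype ι] [DecidableEq ι]

lemma sum_rpow_le {z : ℝ} (h0 : 0 ≤ z) (h1 : z ≤ 1) (T : Finset ι) (x : ι → ℝ)
    (hx : ∀ b, 0 ≤ x b) {μ κ : ℝ} (hμ : 0 < μ) (hκ : 0 < κ) (hT : (T.card : ℝ) ≤ κ)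
    (hsum : ∑ b ∈ T, x b ≤ μ) : ∑ b ∈ T, x b ^ (1 - z) ≤ κ ^ z * μ ^ (1 - z) := by
  have hpt : ∀ b, x b ^ (1 - z) * (μ / κ) ^ z ≤ (1 - z) * x b + z * (μ / κ) := fun b =>
    Real.geom_mean_le_arith_mean2_weighted (by linarith) h0 (hx b) (by positivity) (by ring)
  have h2 : (∑ b ∈ T, x b ^ (1 - z)) * (μ / κ) ^ z ≤ μ := by
    rw [Finset.sum_mul]
    calc _ ≤ ∑ b ∈ T, ((1 - z) * x b + z * (μ / κ)) := Finset.sum_le_sum fun b _ => hpt b
      _ = (1 - z) * ∑ b ∈ T, x b + T.card * (z * (μ / κ)) := by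
          rw [Finset.sum_add_distrib, ← Finset.mul_sum, Finset.sum_const, nsmul_eq_mul]
      _ ≤ (1 - z) * μ + κ * (z * (μ / κ)) := by
          have : 0 ≤ z * (μ / κ) := by positivity
          gcongr
      _ = μ := by field_simp; ring
  have h3 : 0 < (μ / κ) ^ z := by positivity
  have h4 : κ ^ z * μ ^ (1 - z) = μ / (μ / κ) ^ z := by
    rw [Real.div_rpow hμ.le hκ.le, Real.rpow_sub hμ, Real.rpow_one]
    have := (Real.rpow_pos_of_pos hμ z).ne'
    have := (Real.rpow_pos_of_pos hκ z).ne'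
    field_simp
  rw [h4, le_div_iff₀ h3]
  exact h2

/-- The row `a` of `P` has all but `ε²` of its mass on at most `K` coordinates. -/
def LightRow (K : ℕ) (ε : ℝ) (P : Matrix ι ι ℂ) (a : ι) : Prop :=
  ∃ T : Finset ι, T.card ≤ K ∧ ∑ b ∈ Finset.univ \ T, ‖P a b‖ ^ 2 ≤ ε ^ 2

open Classical in
/-- The number of gates of the algorithm with an active row which is not light. -/
noncomputable def heavyGates (K : ℕ) (ε : ℝ) : List (ι × ι × Matrix ι ι ℂ) → ℕ
  | [] => 0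
  | g :: l => (if LightRow K ε (l.map fun g => g.2.2).prod g.1 ∧
      LightRow K ε (l.map fun g => g.2.2).prod g.2.1 then 0 else 1) + heavyGates K ε l

lemma rpow_sq' (z : ℝ) (t : ℝ) (ht : 0 ≤ t) : t ^ (2 - 2 * z) = (t ^ 2) ^ (1 - z) := by
  rw [← Real.rpow_natCast, ← Real.rpow_mul ht]
  congr 1; push_cast; ring

/-- Every unit row has weight at most `N ^ z`. -/
lemma row_le_card {z : ℝ} (h0 : 0 ≤ z) (h1 : z ≤ 1) [Nonempty ι] {P : Matrix ι ι ℂ}
    (hP : P ∈ Matrix.unitaryGroup ι ℂ) (a : ι) :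
    ∑ b, ‖P a b‖ ^ (2 - 2 * z) ≤ (Fintype.card ι : ℝ) ^ z := by
  have h2 := sum_rpow_le h0 h1 Finset.univ (fun b => ‖P a b‖ ^ 2) (fun b => by positivity)
    (μ := 1) (κ := Fintype.card ι) one_pos (by exact_mod_cast Fintype.card_pos)
    (by rw [Finset.card_univ]) (by have := rowSq_unitary hP a; unfold rowSq at this; linarith)
  simp only [Real.one_rpow, mul_one] at h2
  refine le_trans (le_of_eq ?_) h2
  exact Finset.sum_congr rfl fun b _ => rpow_sq' z _ (norm_nonneg _)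

/-- Light rows have small weight. -/
lemma row_le_light {z : ℝ} (h0 : 0 ≤ z) (h1 : z ≤ 1) [Nonempty ι] {P : Matrix ι ι ℂ}
    (hP : P ∈ Matrix.unitaryGroup ι ℂ) {a : ι} {K : ℕ} (hK : 1 ≤ K) {ε : ℝ} (hε : 0 < ε)
    (h : LightRow K ε P a) :
    ∑ b, ‖P a b‖ ^ (2 - 2 * z) ≤
      (K : ℝ) ^ z + (Fintype.card ι : ℝ) ^ z * (ε ^ 2) ^ (1 - z) := by
  obtain ⟨T, hT, hε'⟩ := h
  have hK' : (0 : ℝ) < K := by exact_mod_cast hK
  have hrow : ∑ b, ‖P a b‖ ^ 2 = 1 := by have := rowSq_unitary hP a; unfold rowSq at this; exact this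
  have h2 := sum_rpow_le h0 h1 T (fun b => ‖P a b‖ ^ 2) (fun b => by positivity)
    (μ := 1) (κ := K) one_pos hK' (by exact_mod_cast hT)
    (by
      rw [← hrow]
      exact Finset.sum_le_sum_of_subset_of_nonneg (Finset.subset_univ T) fun _ _ _ => by positivity)
  have h3 := sum_rpow_le h0 h1 (Finset.univ \ T) (fun b => ‖P a b‖ ^ 2) (fun b => by positivity)
    (μ := ε ^ 2) (κ := Fintype.card ι) (by positivity) (by exact_mod_cast Fintype.card_pos)
    (by exact_mod_cast Finset.card_le_univ _) hε'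
  simp only [Real.one_rpow, mul_one] at h2
  calc ∑ b, ‖P a b‖ ^ (2 - 2 * z) = ∑ b, (‖P a b‖ ^ 2) ^ (1 - z) :=
        Finset.sum_congr rfl fun b _ => rpow_sq' z _ (norm_nonneg _)
    _ = ∑ b ∈ Finset.univ \ T, (‖P a b‖ ^ 2) ^ (1 - z) + ∑ b ∈ T, (‖P a b‖ ^ 2) ^ (1 - z) :=
        (Finset.sum_sdiff (Finset.subset_univ T)).symm
    _ ≤ _ := by rw [add_comm]; exact add_le_add h2 h3

lemma weight_le_of {z w : ℝ} (hw : 0 ≤ w) {P : Matrix ι ι ℂ} {i j : ι} {r : ℝ}
    (hi : ∑ b, ‖P i b‖ ^ (2 - 2 * z) ≤ r) (hj : ∑ b, ‖P j b‖ ^ (2 - 2 * z) ≤ r)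
    (hr : 2 * r ≤ w ^ 2) : weight z P i j ≤ w := by
  unfold weight
  rw [Finset.sum_add_distrib]
  exact Real.sqrt_le_iff.2 ⟨hw, by linarith⟩

/-- Adding up. -/
lemma totalWeight_le {z : ℝ} {K : ℕ} {ε a b : ℝ} (hb : 0 ≤ b) (hab : 0 ≤ a)
    (hlight : ∀ (P : Matrix ι ι ℂ) (i j : ι), P ∈ Matrix.unitaryGroup ι ℂ → LightRow K ε P i →
      LightRow K ε P j → weight z P i j ≤ a)
    (hall : ∀ (P : Matrix ι ι ℂ) (i j : ι), P ∈ Matrix.unitaryGroup ι ℂ → weight z P i j ≤ b)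
    (l : List (ι × ι × Matrix ι ι ℂ)) (hl : ∀ g ∈ l, IsTwoAt g.2.2 g.1 g.2.1) :
    totalWeight z l ≤ a * l.length + b * heavyGates K ε l := by
  induction l with
  | nil => simp [totalWeight, heavyGates]
  | cons g l ih =>
    have hl' : ∀ g' ∈ l, IsTwoAt g'.2.2 g'.1 g'.2.1 := fun g' hg' => hl g' (List.mem_cons_of_mem _ hg')
    have ih' := ih hl'
    have hP := prod_mem l hl'
    rw [totalWeight, heavyGates, List.length_cons]
    split_ifs with h
    · have := hlight _ _ _ hP h.1 h.2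
      push_cast
      linarith
    · have := hall _ g.1 g.2.1 hP
      push_cast
      linarith

end rows

/-- **Light algorithms.** -/
theorem light_bound {n : ℕ} (hn : 2 ≤ n) {α : ℝ} (h0 : 0 < α) (h1 : α ≤ 1 / 4) {A : ℝ}
    (hA : 1 ≤ A) {K : ℕ} (hK : 1 ≤ K) (hKn : Real.log K * Real.log (1 / α) ≤ Real.log n)
    (l : List ((Fin n ⊕ Fin n) × (Fin n ⊕ Fin n) × Matrix (Fin n ⊕ Fin n) (Fin n ⊕ Fin n) ℂ))
    (hl : ∀ g ∈ l, IsTwoAt g.2.2 g.1 g.2.1) (hp : (l.map fun g => g.2.2).prod = rotX n α)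
    (hh : (heavyGates K (A * α) l : ℝ) ≤ α * (n * Real.log n) / (96 * Real.log (1 / α))) :
    n * Real.log n / (192 * A * Real.log (1 / α)) ≤ l.length := by
  obtain ⟨hs0, hs1, hs2, hc0, hcs, hlog, hlp⟩ := sin_facts h0 h1
  have hn1 : 1 ≤ n := by omega
  have hn' : (0 : ℝ) < n := by exact_mod_cast hn1
  have hK' : (0 : ℝ) < K := by exact_mod_cast hK
  have hlogn : 0 < Real.log n := Real.log_pos (by exact_mod_cast (by omega : 1 < n))
  haveI : Nonempty (Fin n ⊕ Fin n) := ⟨Sum.inl ⟨0, by omega⟩⟩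
  set s := Real.sin α with hsd
  set z := zOf n s with hz
  have hz0 : 0 < z := zOf_pos hn1 hs0 hs1
  have hz1 : z ≤ 1 := zOf_le_one hn1 hs0 hs1
  have hzl : z * Real.log n ≤ 3 * Real.log (1 / α) := by
    have := zOf_mul_log_le hn1 hs0 hs1
    linarith
  have hfr : (Real.sqrt n / s) ^ z = 1 / s := frac_rpow hn1 hs0 hs1
  have hcard : (Fintype.card (Fin n ⊕ Fin n) : ℝ) = 2 * n := by
    rw [Fintype.card_sum, Fintype.card_fin]; push_cast; ring
  -- `n ^ z s ^ (-2 z) = 1 / s ^ 2`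
  have hnz : (n : ℝ) ^ z * s ^ (2 - 2 * z) = 1 := by
    have e1 : (n : ℝ) ^ z = (Real.sqrt n ^ z) ^ 2 := by
      rw [← Real.rpow_natCast, ← Real.rpow_mul (Real.sqrt_nonneg _), mul_comm z,
        Real.rpow_mul (Real.sqrt_nonneg _)]
      congr 1
      rw [Real.rpow_natCast, Real.sq_sqrt hn'.le]
    have e2 : s ^ (2 - 2 * z) = s ^ 2 / (s ^ z) ^ 2 := by
      rw [Real.rpow_sub hs0, mul_comm 2 z, Real.rpow_mul hs0.le]
      congr 1
      · exact Real.rpow_natCast s 2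
      · exact Real.rpow_natCast _ 2
    have e3 : Real.sqrt n ^ z / s ^ z = 1 / s := by
      rw [← Real.div_rpow (Real.sqrt_nonneg _) hs0.le]
      exact hfr
    have hsz : 0 < s ^ z := Real.rpow_pos_of_pos hs0 z
    calc (n : ℝ) ^ z * s ^ (2 - 2 * z) = (Real.sqrt n ^ z / s ^ z) ^ 2 * s ^ 2 := by
          rw [e1, e2]; field_simp
      _ = 1 := by rw [e3]; field_simp
  have h2z : (2 : ℝ) ^ z ≤ 2 := by
    calc (2 : ℝ) ^ z ≤ 2 ^ (1 : ℝ) := Real.rpow_le_rpow_of_exponent_le (by norm_num) hz1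
      _ = 2 := Real.rpow_one 2
  have h2nz : (2 * (n : ℝ)) ^ z ≤ 2 * (n : ℝ) ^ z := by
    rw [Real.mul_rpow (by norm_num) hn'.le]
    have : 0 ≤ (n : ℝ) ^ z := by positivity
    nlinarith
  -- heavy gates
  have hall : ∀ (P : Matrix (Fin n ⊕ Fin n) (Fin n ⊕ Fin n) ℂ) (i j : Fin n ⊕ Fin n),
      P ∈ Matrix.unitaryGroup (Fin n ⊕ Fin n) ℂ → weight z P i j ≤ 4 / α := by
    intro P i j hP
    have hr := fun a => row_le_card hz0.le hz1 hP a
    rw [hcard] at hr
    have hb : (2 * (n : ℝ)) ^ z ≤ 2 / s ^ 2 := by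
      have e1 : (n : ℝ) ^ z ≤ 1 / s ^ 2 := by
        have e2 : s ^ 2 ≤ s ^ (2 - 2 * z) := by
          rw [← Real.rpow_natCast s 2]
          exact Real.rpow_le_rpow_of_exponent_ge hs0 hs1.le (by push_cast; linarith)
        rw [le_div_iff₀ (by positivity)]
        calc (n : ℝ) ^ z * s ^ 2 ≤ (n : ℝ) ^ z * s ^ (2 - 2 * z) := by gcongr
          _ = 1 := hnz
      calc (2 * (n : ℝ)) ^ z ≤ 2 * (n : ℝ) ^ z := h2nz
        _ ≤ 2 * (1 / s ^ 2) := by gcongr
        _ = _ := by ring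
    refine weight_le_of (by positivity) ((hr i).trans hb) ((hr j).trans hb) ?_
    have : α ^ 2 / 4 ≤ s ^ 2 := by nlinarith
    rw [mul_div_assoc', div_pow, div_le_div_iff₀ (by positivity) (by positivity)]
    nlinarith
  -- light gates
  have hKz : (K : ℝ) ^ z ≤ 21 := by
    rw [Real.rpow_def_of_pos hK']
    have hlogK : 0 ≤ Real.log K := Real.log_nonneg (by exact_mod_cast hK)
    have h3 : Real.log K * z ≤ 3 := by
      have e1 : Real.log K * z * Real.log n ≤ 3 * Real.log n := by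
        calc Real.log K * z * Real.log n = Real.log K * (z * Real.log n) := by ring
          _ ≤ Real.log K * (3 * Real.log (1 / α)) := by gcongr
          _ = 3 * (Real.log K * Real.log (1 / α)) := by ring
          _ ≤ 3 * Real.log n := by gcongr
      exact le_of_mul_le_mul_right e1 hlogn
    calc Real.exp (Real.log K * z) ≤ Real.exp 3 := Real.exp_le_exp.2 h3
      _ = Real.exp 1 ^ 3 := by rw [← Real.exp_nat_mul]; norm_num
      _ ≤ 2.7182818286 ^ 3 := by
          gcongr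
          exact Real.exp_one_lt_d9.le
      _ ≤ 21 := by norm_num
  have hlight : ∀ (P : Matrix (Fin n ⊕ Fin n) (Fin n ⊕ Fin n) ℂ) (i j : Fin n ⊕ Fin n),
      P ∈ Matrix.unitaryGroup (Fin n ⊕ Fin n) ℂ → LightRow K (A * α) P i →
      LightRow K (A * α) P j → weight z P i j ≤ 8 * A := by
    intro P i j hP hi hj
    have hr := fun a (ha : LightRow K (A * α) P a) =>
      row_le_light hz0.le hz1 hP hK (by positivity) ha
    rw [hcard] at hr
    have hb : (K : ℝ) ^ z + (2 * (n : ℝ)) ^ z * ((A * α) ^ 2) ^ (1 - z) ≤ 29 * A ^ 2 := by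
      have e1 : ((A * α) ^ 2) ^ (1 - z) ≤ 4 * A ^ 2 * s ^ (2 - 2 * z) := by
        rw [← rpow_sq' z (A * α) (by positivity)]
        have e2 : A * α ≤ (2 * A) * s := by nlinarith
        calc (A * α) ^ (2 - 2 * z) ≤ ((2 * A) * s) ^ (2 - 2 * z) :=
              Real.rpow_le_rpow (by positivity) e2 (by linarith)
          _ = (2 * A) ^ (2 - 2 * z) * s ^ (2 - 2 * z) := Real.mul_rpow (by positivity) hs0.le
          _ ≤ (2 * A) ^ (2 : ℝ) * s ^ (2 - 2 * z) := by
              gcongr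
              · linarith
              · linarith
          _ = 4 * A ^ 2 * s ^ (2 - 2 * z) := by
              have : (2 * A) ^ (2 : ℝ) = (2 * A) ^ 2 := Real.rpow_natCast (2 * A) 2
              rw [this]; ring
      have e3 : (2 * (n : ℝ)) ^ z * ((A * α) ^ 2) ^ (1 - z) ≤ 8 * A ^ 2 := by
        calc _ ≤ (2 * (n : ℝ) ^ z) * (4 * A ^ 2 * s ^ (2 - 2 * z)) := by gcongr
          _ = 8 * A ^ 2 * ((n : ℝ) ^ z * s ^ (2 - 2 * z)) := by ring
          _ = 8 * A ^ 2 := by rw [hnz, mul_one]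
      nlinarith
    exact weight_le_of (by positivity) ((hr i hi).trans hb) ((hr j hj).trans hb) (by nlinarith)
  have key := weighted hn1 h0 h1 l hl hp
  have htot := totalWeight_le (z := z) (K := K) (ε := A * α) (a := 8 * A) (b := 4 / α)
    (by positivity) (by positivity) hlight hall l hl
  have hlast : (n : ℝ) ≤ 4 * z * (8 * A * l.length + 4 / α * heavyGates K (A * α) l) :=
    key.trans (by gcongr)
  -- multiply by `log n`
  have hL : (n : ℝ) * Real.log n ≤ 12 * Real.log (1 / α) *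
      (8 * A * l.length + 4 / α * heavyGates K (A * α) l) := by
    calc (n : ℝ) * Real.log n ≤ (4 * z * (8 * A * l.length + 4 / α * heavyGates K (A * α) l)) *
          Real.log n := by gcongr
      _ = 4 * (8 * A * l.length + 4 / α * heavyGates K (A * α) l) * (z * Real.log n) := by ring
      _ ≤ 4 * (8 * A * l.length + 4 / α * heavyGates K (A * α) l) * (3 * Real.log (1 / α)) := by
          gcongr
      _ = _ := by ring
  have hheavy : 12 * Real.log (1 / α) * (4 / α * heavyGates K (A * α) l) ≤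
      (n : ℝ) * Real.log n / 2 := by
    rw [le_div_iff₀ (by positivity)] at hh
    have : 12 * Real.log (1 / α) * (4 / α * heavyGates K (A * α) l) =
        (heavyGates K (A * α) l * (96 * Real.log (1 / α))) / (2 * α) := by
      field_simp; ring
    rw [this, div_le_div_iff₀ (by positivity) (by norm_num)]
    nlinarith
  rw [div_le_iff₀ (by positivity)]
  nlinarith

end Light

end RotFourier
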